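import Mathlib

/-!
Deterministic part of the disproof of the Duchet-Meyniel question on chromatic `k`-schemes.
-/

namespace Pool.Agent.ChromScheme

open Finset

/-- distinct vertices without a common neighbour -/
def Noc {V : Type*} (F : SimpleGraph V) (u v : V) : Prop :=
  u ≠ v ∧ ∀ w, ¬ (F.Adj u w ∧ F.Adj v w)

theorem Noc.symm {V : Type*} {F : SimpleGraph V} {u v : V} (h : Noc F u v) : Noc F v u :=
  ⟨h.1.symm, fun w hw => h.2 w ⟨hw.2, hw.1⟩⟩

/-- `d`-good graphs -/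
structure Good {V : Type*} [Fintype V] (F : SimpleGraph V) (d : ℕ) : Prop where
  trifree : ∀ u v w, F.Adj u v → F.Adj v w → ¬ F.Adj u w
  edge : ∀ U U' : Finset V, Fintype.card V ≤ d * U.card → Fintype.card V ≤ d * U'.card →
    ∃ u ∈ U, ∃ v ∈ U', F.Adj u v
  rigid : ∀ M M' : Finset (V × V), Fintype.card V ≤ d * M.card → Fintype.card V ≤ d * M'.card →
    Set.InjOn Prod.fst (M : Set (V × V)) → Set.InjOn Prod.snd (M : Set (V × V)) →
    Set.InjOn Prod.fst (M' : Set (V × V)) → Set.InjOn Prod.snd (M' : Set (V × V)) →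
    (∀ p ∈ M, p.1 ≠ p.2) → (∀ p ∈ M', p.1 ≠ p.2) →
    ∃ p ∈ M, ∃ q ∈ M', F.Adj p.1 q.1 ∧ Noc F p.2 q.2

theorem Good.noc {V : Type*} [Fintype V] {F : SimpleGraph V} {d : ℕ} (h : Good F d) {u v : V}
    (huv : F.Adj u v) : Noc F u v :=
  ⟨huv.ne, fun w hw => h.trifree u w v hw.1 hw.2.symm huv⟩

theorem Good.mono {V : Type*} [Fintype V] {F : SimpleGraph V} {d e : ℕ} (h : Good F d)
    (hed : e ≤ d) : Good F e where
  trifree := h.trifree
  edge U U' h1 h2 := h.edge U U' (h1.trans (Nat.mul_le_mul_right _ hed))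
    (h2.trans (Nat.mul_le_mul_right _ hed))
  rigid M M' h1 h2 := h.rigid M M' (h1.trans (Nat.mul_le_mul_right _ hed))
    (h2.trans (Nat.mul_le_mul_right _ hed))

/-- matched pairs, allowing fixed points -/
theorem Good.rows {V : Type*} [Fintype V] [DecidableEq V] {F : SimpleGraph V} {e : ℕ}
    (h : Good F (2 * e)) (M : Finset (V × V)) (hM : Fintype.card V ≤ e * M.card)
    (h1 : Set.InjOn Prod.fst (M : Set (V × V))) (h2 : Set.InjOn Prod.snd (M : Set (V × V))) :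
    ∃ p ∈ M, ∃ q ∈ M, F.Adj p.1 q.1 ∧ Noc F p.2 q.2 := by
  classical
  set M0 := M.filter (fun p => p.1 = p.2) with hM0
  set M1 := M.filter (fun p => ¬ p.1 = p.2) with hM1
  have hc : M0.card + M1.card = M.card := Finset.card_filter_add_card_filter_not _
  have hs0 : M0 ⊆ M := Finset.filter_subset _ _
  have hs1 : M1 ⊆ M := Finset.filter_subset _ _
  rcases le_total M1.card M0.card with hle | hle
  · -- many fixed points
    have hcard : Fintype.card V ≤ 2 * e * (M0.image Prod.fst).card := by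
      rw [Finset.card_image_of_injOn (h1.mono (by exact_mod_cast hs0))]
      calc Fintype.card V ≤ e * M.card := hM
        _ = e * (M0.card + M1.card) := by rw [hc]
        _ ≤ e * (M0.card + M0.card) := Nat.mul_le_mul_left _ (by omega)
        _ = 2 * e * M0.card := by ring
    obtain ⟨u, hu, v, hv, huv⟩ := h.edge _ _ hcard hcard
    obtain ⟨p, hp, rfl⟩ := Finset.mem_image.1 hu
    obtain ⟨q, hq, rfl⟩ := Finset.mem_image.1 hv
    have hp' := (Finset.mem_filter.1 hp)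
    have hq' := (Finset.mem_filter.1 hq)
    refine ⟨p, hs0 hp, q, hs0 hq, huv, ?_⟩
    rw [← hp'.2, ← hq'.2]
    exact h.noc huv
  · have hcard : Fintype.card V ≤ 2 * e * M1.card := by
      calc Fintype.card V ≤ e * M.card := hM
        _ = e * (M0.card + M1.card) := by rw [hc]
        _ ≤ e * (M1.card + M1.card) := Nat.mul_le_mul_left _ (by omega)
        _ = 2 * e * M1.card := by ring
    obtain ⟨p, hp, q, hq, hpq⟩ := h.rigid M1 M1 hcard hcard
      (h1.mono (by exact_mod_cast hs1)) (h2.mono (by exact_mod_cast hs1))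
      (h1.mono (by exact_mod_cast hs1)) (h2.mono (by exact_mod_cast hs1))
      (fun p hp => (Finset.mem_filter.1 hp).2) (fun p hp => (Finset.mem_filter.1 hp).2)
    exact ⟨p, hs1 hp, q, hs1 hq, hpq⟩

/-- the product of two graphs -/
def prodGraph {A B : Type*} (F₁ : SimpleGraph A) (F₂ : SimpleGraph B) : SimpleGraph (A × B) where
  Adj p q := (F₁.Adj p.1 q.1 ∧ Noc F₂ p.2 q.2) ∨ (F₂.Adj p.2 q.2 ∧ Noc F₁ p.1 q.1)
  symm := ⟨fun p q h => by
    rcases h with h | h
    · exact Or.inl ⟨h.1.symm, h.2.symm⟩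
    · exact Or.inr ⟨h.1.symm, h.2.symm⟩⟩
  loopless := ⟨fun p h => by
    rcases h with h | h
    · exact h.2.1 rfl
    · exact h.2.1 rfl⟩

theorem prodGraph_trifree {A B : Type*} {F₁ : SimpleGraph A} {F₂ : SimpleGraph B}
    (h₁ : ∀ u v w, F₁.Adj u v → F₁.Adj v w → ¬ F₁.Adj u w)
    (h₂ : ∀ u v w, F₂.Adj u v → F₂.Adj v w → ¬ F₂.Adj u w)
    (p q r : A × B) (hpq : (prodGraph F₁ F₂).Adj p q) (hqr : (prodGraph F₁ F₂).Adj q r) :
    ¬ (prodGraph F₁ F₂).Adj p r := by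
  intro hpr
  rcases hpq with a | a <;> rcases hqr with b | b <;> rcases hpr with c | c
  · exact h₁ _ _ _ a.1 b.1 c.1
  · exact c.2.2 q.1 ⟨a.1, b.1.symm⟩
  · exact b.2.2 p.1 ⟨a.1.symm, c.1.symm⟩
  · exact a.2.2 r.2 ⟨c.1, b.1⟩
  · exact a.2.2 r.1 ⟨c.1, b.1⟩
  · exact b.2.2 p.2 ⟨a.1.symm, c.1.symm⟩
  · exact c.2.2 q.2 ⟨a.1, b.1.symm⟩
  · exact h₂ _ _ _ a.1 b.1 c.1

end Pool.Agent.ChromScheme
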