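import Pool.Agent.ChromScheme.Basic

namespace Pool.Agent.ChromScheme

open Finset

variable {A B : Type*} [Fintype A] [Fintype B] [DecidableEq A] [DecidableEq B]

theorem prodGraph_indep {F₁ : SimpleGraph A} {F₂ : SimpleGraph B} (g₁ : Good F₁ 32)
    (g₂ : Good F₂ 32) (Z : Finset (A × B))
    (hZ : ∀ p ∈ Z, ∀ q ∈ Z, ¬ (prodGraph F₁ F₂).Adj p q) :
    16 * Z.card ≤ Fintype.card A * Fintype.card B := by
  classical
  by_contra hcon
  push Not at hcon
  set f₁ := Fintype.card A
  set f₂ := Fintype.card B
  set Za : A → Finset (A × B) := fun a => Z.filter (fun p => p.1 = a) with hZa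
  set R : Finset A := Finset.univ.filter (fun a => f₂ ≤ 32 * (Za a).card) with hR
  have hsum : Z.card = ∑ a : A, (Za a).card :=
    Finset.card_eq_sum_card_fiberwise (f := Prod.fst) (t := Finset.univ) (by intro x _; simp)
  have hZaB : ∀ a, (Za a).card ≤ f₂ := by
    intro a
    have hinj : Set.InjOn Prod.snd ((Za a : Finset (A × B)) : Set (A × B)) := by
      intro p hp q hq h
      have h1 := (Finset.mem_filter.1 hp).2
      have h2 := (Finset.mem_filter.1 hq).2
      exact Prod.ext (h1.trans h2.symm) h
    calc (Za a).card = ((Za a).image Prod.snd).card := (Finset.card_image_of_injOn hinj).symm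
      _ ≤ f₂ := Finset.card_le_univ _
  have hbound : 32 * Z.card ≤ 32 * R.card * f₂ + f₁ * f₂ := by
    rw [hsum, Finset.mul_sum]
    calc ∑ a : A, 32 * (Za a).card
        ≤ ∑ a : A, ((if a ∈ R then 32 * f₂ else 0) + f₂) := by
          refine Finset.sum_le_sum fun a _ => ?_
          by_cases ha : a ∈ R
          · rw [if_pos ha]; have := hZaB a; omega
          · rw [if_neg ha]
            have : ¬ f₂ ≤ 32 * (Za a).card := fun h => ha (Finset.mem_filter.2 ⟨Finset.mem_univ _, h⟩)
            omega
      _ = 32 * R.card * f₂ + f₁ * f₂ := by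
          rw [Finset.sum_add_distrib, Finset.sum_ite_mem, Finset.univ_inter, Finset.sum_const,
            Finset.sum_const, Finset.card_univ]
          simp only [smul_eq_mul]
          ring
  have hf : 0 < f₂ := by
    rcases Nat.eq_zero_or_pos f₂ with h0 | h0
    · exfalso
      have : Z.card ≤ Fintype.card (A × B) := Finset.card_le_univ _
      rw [Fintype.card_prod] at this
      change Z.card ≤ f₁ * f₂ at this
      rw [h0, Nat.mul_zero] at this hcon
      omega
    · exact h0
  have hRc : f₁ ≤ 32 * R.card := by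
    have : f₁ * f₂ < 32 * R.card * f₂ := by nlinarith
    exact (Nat.lt_of_mul_lt_mul_right this).le
  obtain ⟨a, ha, a', ha', haa⟩ := g₁.edge R R hRc hRc
  have key : ∀ a ∈ R, f₂ ≤ 32 * ((Za a).image Prod.snd).card := by
    intro a ha
    have hinj : Set.InjOn Prod.snd ((Za a : Finset (A × B)) : Set (A × B)) := by
      intro p hp q hq h
      have h1 := (Finset.mem_filter.1 hp).2
      have h2 := (Finset.mem_filter.1 hq).2
      exact Prod.ext (h1.trans h2.symm) h
    rw [Finset.card_image_of_injOn hinj]
    exact (Finset.mem_filter.1 ha).2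
  obtain ⟨b, hb, b', hb', hbb⟩ := g₂.edge _ _ (key a ha) (key a' ha')
  obtain ⟨p, hp, rfl⟩ := Finset.mem_image.1 hb
  obtain ⟨q, hq, rfl⟩ := Finset.mem_image.1 hb'
  have hp' := Finset.mem_filter.1 hp
  have hq' := Finset.mem_filter.1 hq
  refine hZ p hp'.1 q hq'.1 (Or.inl ⟨?_, g₂.noc hbb⟩)
  rw [hp'.2, hq'.2]
  exact haa

/-- every large family of pairs has a conflict -/
theorem prodGraph_conflict {ι : Type*} [DecidableEq ι] {F₁ : SimpleGraph A} {F₂ : SimpleGraph B}
    (g₁ : Good F₁ 512) (g₂ : Good F₂ (32 * Fintype.card A)) (hA : 0 < Fintype.card A)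
    (hB : 0 < Fintype.card B) (I : Finset ι)
    (x y : ι → A × B) (hx : Set.InjOn x (I : Set ι)) (hy : Set.InjOn y (I : Set ι))
    (hI : 3 * (Fintype.card A * Fintype.card B) ≤ 8 * I.card) :
    ∃ i ∈ I, ∃ j ∈ I, (prodGraph F₁ F₂).Adj (x i) (x j) ∧ (prodGraph F₁ F₂).Adj (y i) (y j) := by
  classical
  set f₁ := Fintype.card A with hf₁
  set f₂ := Fintype.card B with hf₂
  -- rows of x
  set X : A → Finset ι := fun a => I.filter (fun i => (x i).1 = a) with hX
  set Y : A → Finset ι := fun c => I.filter (fun i => (y i).1 = c) with hY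
  set C : A × A → Finset ι := fun p => I.filter (fun i => (x i).1 = p.1 ∧ (y i).1 = p.2) with hC
  have hXB : ∀ a, (X a).card ≤ f₂ := by
    intro a
    have hinj : Set.InjOn (fun i => (x i).2) ((X a : Finset ι) : Set ι) := by
      intro i hi j hj h
      have h1 := Finset.mem_filter.1 hi
      have h2 := Finset.mem_filter.1 hj
      exact hx h1.1 h2.1 (Prod.ext (h1.2.trans h2.2.symm) h)
    calc (X a).card = ((X a).image (fun i => (x i).2)).card :=
          (Finset.card_image_of_injOn hinj).symm
      _ ≤ f₂ := Finset.card_le_univ _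
  have hYB : ∀ a, (Y a).card ≤ f₂ := by
    intro a
    have hinj : Set.InjOn (fun i => (y i).2) ((Y a : Finset ι) : Set ι) := by
      intro i hi j hj h
      have h1 := Finset.mem_filter.1 hi
      have h2 := Finset.mem_filter.1 hj
      exact hy h1.1 h2.1 (Prod.ext (h1.2.trans h2.2.symm) h)
    calc (Y a).card = ((Y a).image (fun i => (y i).2)).card :=
          (Finset.card_image_of_injOn hinj).symm
      _ ≤ f₂ := Finset.card_le_univ _
  have hXsum : I.card = ∑ a : A, (X a).card :=
    Finset.card_eq_sum_card_fiberwise (f := fun i => (x i).1) (t := Finset.univ)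
      (by intro x _; simp)
  have hXC : ∀ a, (X a).card = ∑ c : A, (C (a, c)).card := by
    intro a
    rw [Finset.card_eq_sum_card_fiberwise (s := X a) (f := fun i => (y i).1) (t := Finset.univ)
      (by intro x _; simp)]
    refine Finset.sum_congr rfl fun c _ => ?_
    rw [hX, hC]
    simp only [Finset.filter_filter]
  have hYC : ∀ c, (Y c).card = ∑ a : A, (C (a, c)).card := by
    intro c
    rw [Finset.card_eq_sum_card_fiberwise (s := Y c) (f := fun i => (x i).1) (t := Finset.univ)
      (by intro x _; simp)]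
    refine Finset.sum_congr rfl fun a _ => ?_
    rw [hY, hC]
    simp only [Finset.filter_filter]
    congr 1
    ext i
    simp only [Finset.mem_filter]
    tauto
  set R : Finset A := Finset.univ.filter (fun a => f₂ ≤ 8 * (X a).card) with hR
  have hRc : f₁ ≤ 4 * R.card := by
    have hbound : 8 * I.card ≤ 8 * R.card * f₂ + f₁ * f₂ := by
      rw [hXsum, Finset.mul_sum]
      calc ∑ a : A, 8 * (X a).card
          ≤ ∑ a : A, ((if a ∈ R then 8 * f₂ else 0) + f₂) := by
            refine Finset.sum_le_sum fun a _ => ?_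
            by_cases ha : a ∈ R
            · rw [if_pos ha]; have := hXB a; omega
            · rw [if_neg ha]
              have : ¬ f₂ ≤ 8 * (X a).card :=
                fun h => ha (Finset.mem_filter.2 ⟨Finset.mem_univ _, h⟩)
              omega
        _ = 8 * R.card * f₂ + f₁ * f₂ := by
            rw [Finset.sum_add_distrib, Finset.sum_ite_mem, Finset.univ_inter, Finset.sum_const,
              Finset.sum_const, Finset.card_univ]
            simp only [smul_eq_mul]
            ring
    have : f₁ * f₂ ≤ 4 * R.card * f₂ := by nlinarith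
    exact Nat.le_of_mul_le_mul_right this hB
  -- heavy cells
  set E : Finset (A × A) :=
    Finset.univ.filter (fun p => p.1 ∈ R ∧ f₂ ≤ 16 * f₁ * (C p).card) with hE
  have hcell : ∀ a ∈ R, f₂ ≤ 16 * ∑ c ∈ Finset.univ.filter (fun c => (a, c) ∈ E), (C (a, c)).card := by
    intro a ha
    have h8 : f₂ ≤ 8 * (X a).card := (Finset.mem_filter.1 ha).2
    have hsplit := Finset.sum_filter_add_sum_filter_not (Finset.univ : Finset A)
      (fun c => (a, c) ∈ E) (fun c => (C (a, c)).card)
    have hsmall : f₁ * (16 * ∑ c ∈ Finset.univ.filter (fun c => ¬ (a, c) ∈ E), (C (a, c)).card)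
        ≤ f₁ * f₂ := by
      calc f₁ * (16 * ∑ c ∈ Finset.univ.filter (fun c => ¬ (a, c) ∈ E), (C (a, c)).card)
          = ∑ c ∈ Finset.univ.filter (fun c => ¬ (a, c) ∈ E), 16 * f₁ * (C (a, c)).card := by
            rw [Finset.mul_sum, Finset.mul_sum]
            refine Finset.sum_congr rfl fun c _ => ?_
            ring
        _ ≤ ∑ c ∈ Finset.univ.filter (fun c => ¬ (a, c) ∈ E), f₂ := by
            refine Finset.sum_le_sum fun c hc => ?_
            have hc' := (Finset.mem_filter.1 hc).2
            by_contra hlt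
            exact hc' (Finset.mem_filter.2 ⟨Finset.mem_univ _, ha, by omega⟩)
        _ = (Finset.univ.filter (fun c => ¬ (a, c) ∈ E)).card * f₂ := by
            rw [Finset.sum_const, smul_eq_mul]
        _ ≤ f₁ * f₂ := Nat.mul_le_mul_right _ (Finset.card_le_univ _)
    have hsmall' := Nat.le_of_mul_le_mul_left hsmall hA
    have hXa := hXC a
    omega
  -- maximal partial matching inside E
  obtain ⟨M, hM, hMmax⟩ := Finset.exists_max_image
    (E.powerset.filter (fun M : Finset (A × A) => Set.InjOn Prod.fst (M : Set (A × A)) ∧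
      Set.InjOn Prod.snd (M : Set (A × A)))) Finset.card
    ⟨∅, by simp⟩
  have hM' := Finset.mem_filter.1 hM
  have hME : M ⊆ E := Finset.mem_powerset.1 hM'.1
  have hinj1 := hM'.2.1
  have hinj2 := hM'.2.2
  have hcover : ∀ p ∈ E, p.1 ∈ M.image Prod.fst ∨ p.2 ∈ M.image Prod.snd := by
    intro p hp
    by_contra hcon
    push Not at hcon
    have hpM : p ∉ M := fun h => hcon.1 (Finset.mem_image_of_mem _ h)
    have hnew : insert p M ∈ E.powerset.filter (fun M : Finset (A × A) => Set.InjOn Prod.fst (M : Set (A × A)) ∧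
        Set.InjOn Prod.snd (M : Set (A × A))) := by
      refine Finset.mem_filter.2 ⟨Finset.mem_powerset.2 ?_, ?_, ?_⟩
      · intro q hq
        rcases Finset.mem_insert.1 hq with rfl | hq
        · exact hp
        · exact hME hq
      · rw [Finset.coe_insert, Set.injOn_insert (by exact_mod_cast hpM)]
        refine ⟨hinj1, ?_⟩
        rintro ⟨q, hq, hqp⟩
        exact hcon.1 (hqp ▸ Finset.mem_image_of_mem _ hq)
      · rw [Finset.coe_insert, Set.injOn_insert (by exact_mod_cast hpM)]
        refine ⟨hinj2, ?_⟩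
        rintro ⟨q, hq, hqp⟩
        exact hcon.2 (hqp ▸ Finset.mem_image_of_mem _ hq)
    have := hMmax _ hnew
    rw [Finset.card_insert_of_notMem hpM] at this
    omega
  have hMcard : f₁ ≤ 128 * M.card := by
    -- total weight of E
    have hW1 : R.card * f₂ ≤ 16 * ∑ p ∈ E, (C p).card := by
      have : ∑ p ∈ E, (C p).card =
          ∑ a ∈ R, ∑ c ∈ Finset.univ.filter (fun c => (a, c) ∈ E), (C (a, c)).card := by
        rw [Finset.sum_sigma']
        refine Finset.sum_bij' (fun p _ => (⟨p.1, p.2⟩ : (_ : A) × A)) (fun s _ => (s.1, s.2))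
          ?_ ?_ ?_ ?_ ?_
        · intro p hp
          simp only [Finset.mem_sigma, Finset.mem_filter, Finset.mem_univ, true_and]
          exact ⟨(Finset.mem_filter.1 hp).2.1, hp⟩
        · intro s hs
          simp only [Finset.mem_sigma, Finset.mem_filter, Finset.mem_univ, true_and] at hs
          exact hs.2
        · intro p _; rfl
        · intro s _; rfl
        · intro p _; rfl
      rw [this, Finset.mul_sum]
      calc R.card * f₂ = ∑ a ∈ R, f₂ := by rw [Finset.sum_const, smul_eq_mul]
        _ ≤ _ := Finset.sum_le_sum fun a ha => hcell a ha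
    have hW2 : ∑ p ∈ E, (C p).card ≤ 2 * M.card * f₂ := by
      calc ∑ p ∈ E, (C p).card
          ≤ ∑ p ∈ E, ((if p.1 ∈ M.image Prod.fst then (C p).card else 0) +
              (if p.2 ∈ M.image Prod.snd then (C p).card else 0)) := by
            refine Finset.sum_le_sum fun p hp => ?_
            rcases hcover p hp with h | h
            · rw [if_pos h]; omega
            · rw [if_pos h]; omega
        _ ≤ ∑ p : A × A, ((if p.1 ∈ M.image Prod.fst then (C p).card else 0) +
              (if p.2 ∈ M.image Prod.snd then (C p).card else 0)) :=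
            Finset.sum_le_sum_of_subset (Finset.subset_univ _)
        _ = ∑ a : A, (if a ∈ M.image Prod.fst then (X a).card else 0) +
              ∑ c : A, (if c ∈ M.image Prod.snd then (Y c).card else 0) := by
            rw [Finset.sum_add_distrib]
            congr 1
            · rw [Fintype.sum_prod_type]
              refine Finset.sum_congr rfl fun a _ => ?_
              split_ifs
              · rw [hXC]
              · simp
            · rw [Fintype.sum_prod_type_right]
              refine Finset.sum_congr rfl fun a _ => ?_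
              split_ifs
              · rw [hYC]
              · simp
        _ ≤ M.card * f₂ + M.card * f₂ := by
            refine Nat.add_le_add ?_ ?_
            · rw [Finset.sum_ite_mem, Finset.univ_inter]
              calc ∑ a ∈ M.image Prod.fst, (X a).card ≤ ∑ a ∈ M.image Prod.fst, f₂ :=
                    Finset.sum_le_sum fun a _ => hXB a
                _ = (M.image Prod.fst).card * f₂ := by rw [Finset.sum_const, smul_eq_mul]
                _ ≤ M.card * f₂ := Nat.mul_le_mul_right _ Finset.card_image_le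
            · rw [Finset.sum_ite_mem, Finset.univ_inter]
              calc ∑ a ∈ M.image Prod.snd, (Y a).card ≤ ∑ a ∈ M.image Prod.snd, f₂ :=
                    Finset.sum_le_sum fun a _ => hYB a
                _ = (M.image Prod.snd).card * f₂ := by rw [Finset.sum_const, smul_eq_mul]
                _ ≤ M.card * f₂ := Nat.mul_le_mul_right _ Finset.card_image_le
        _ = 2 * M.card * f₂ := by ring
    have : f₁ * f₂ ≤ 128 * M.card * f₂ := by nlinarith
    exact Nat.le_of_mul_le_mul_right this hB
  -- split according to the type of the cell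
  set Fix : A × A → Finset ι := fun p => (C p).filter (fun i => (x i).2 = (y i).2) with hFix
  set Non : A × A → Finset ι := fun p => (C p).filter (fun i => ¬ (x i).2 = (y i).2) with hNon
  set M0 := M.filter (fun p => f₂ ≤ 32 * f₁ * (Fix p).card) with hM0
  set M1 := M.filter (fun p => ¬ f₂ ≤ 32 * f₁ * (Fix p).card) with hM1
  have hc : M0.card + M1.card = M.card := Finset.card_filter_add_card_filter_not _
  have hs0 : M0 ⊆ M := Finset.filter_subset _ _
  have hs1 : M1 ⊆ M := Finset.filter_subset _ _
  have hmemC : ∀ p, ∀ i ∈ C p, i ∈ I ∧ (x i).1 = p.1 ∧ (y i).1 = p.2 := by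
    intro p i hi
    exact ⟨(Finset.mem_filter.1 hi).1, (Finset.mem_filter.1 hi).2.1, (Finset.mem_filter.1 hi).2.2⟩
  have hxinj : ∀ p, ∀ i ∈ C p, ∀ j ∈ C p, (x i).2 = (x j).2 → i = j := by
    intro p i hi j hj h
    have h1 := hmemC p i hi
    have h2 := hmemC p j hj
    exact hx h1.1 h2.1 (Prod.ext (h1.2.1.trans h2.2.1.symm) h)
  have hyinj : ∀ p, ∀ i ∈ C p, ∀ j ∈ C p, (y i).2 = (y j).2 → i = j := by
    intro p i hi j hj h
    have h1 := hmemC p i hi
    have h2 := hmemC p j hj
    exact hy h1.1 h2.1 (Prod.ext (h1.2.2.trans h2.2.2.symm) h)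
  rcases le_total M1.card M0.card with hle | hle
  · -- fixed type
    have hcard : f₁ ≤ 256 * M0.card := by omega
    obtain ⟨p, hp, q, hq, hpq, hnoc⟩ := Good.rows (e := 256) g₁ M0 hcard
      (hinj1.mono (by exact_mod_cast hs0)) (hinj2.mono (by exact_mod_cast hs0))
    have hcp : ∀ p ∈ M0, f₂ ≤ 32 * f₁ * ((Fix p).image (fun i => (x i).2)).card := by
      intro p hp
      rw [Finset.card_image_of_injOn]
      · exact (Finset.mem_filter.1 hp).2
      · intro i hi j hj h
        exact hxinj p i (Finset.mem_filter.1 hi).1 j (Finset.mem_filter.1 hj).1 h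
    obtain ⟨u, hu, v, hv, huv⟩ := g₂.edge _ _ (hcp p hp) (hcp q hq)
    obtain ⟨i, hi, rfl⟩ := Finset.mem_image.1 hu
    obtain ⟨j, hj, rfl⟩ := Finset.mem_image.1 hv
    have hi' := Finset.mem_filter.1 hi
    have hj' := Finset.mem_filter.1 hj
    have hi2 := hmemC p i hi'.1
    have hj2 := hmemC q j hj'.1
    refine ⟨i, hi2.1, j, hj2.1, Or.inl ⟨?_, g₂.noc huv⟩, Or.inr ⟨?_, ?_⟩⟩
    · rw [hi2.2.1, hj2.2.1]; exact hpq
    · rw [← hi'.2, ← hj'.2]; exact huv
    · rw [hi2.2.2, hj2.2.2]; exact hnoc
  · have hcard : f₁ ≤ 256 * M1.card := by omega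
    obtain ⟨p, hp, q, hq, hpq, hnoc⟩ := Good.rows (e := 256) g₁ M1 hcard
      (hinj1.mono (by exact_mod_cast hs1)) (hinj2.mono (by exact_mod_cast hs1))
    set P : A × A → Finset (B × B) := fun p => (Non p).image (fun i => ((y i).2, (x i).2)) with hP
    have hPcard : ∀ p ∈ M1, f₂ ≤ 32 * f₁ * (P p).card := by
      intro p hp
      have hpE := hME (hs1 hp)
      have h16 := (Finset.mem_filter.1 hpE).2.2
      have hnf := (Finset.mem_filter.1 hp).2
      have hcc : (Fix p).card + (Non p).card = (C p).card := Finset.card_filter_add_card_filter_not _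
      rw [hP, Finset.card_image_of_injOn]
      · have h3 : 16 * f₁ * (C p).card = 16 * f₁ * (Fix p).card + 16 * f₁ * (Non p).card := by
          rw [← hcc]; ring
        have h4 : 32 * f₁ * (Fix p).card = 2 * (16 * f₁ * (Fix p).card) := by ring
        have h5 : 32 * f₁ * (Non p).card = 2 * (16 * f₁ * (Non p).card) := by ring
        omega
      · intro i hi j hj h
        have h := congrArg Prod.snd h
        exact hxinj p i (Finset.mem_filter.1 hi).1 j (Finset.mem_filter.1 hj).1 h
    have hP1 : ∀ p, Set.InjOn Prod.fst ((P p : Finset (B × B)) : Set (B × B)) := by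
      intro p s hs t ht h
      obtain ⟨i, hi, rfl⟩ := Finset.mem_image.1 (Finset.mem_coe.1 hs)
      obtain ⟨j, hj, rfl⟩ := Finset.mem_image.1 (Finset.mem_coe.1 ht)
      have := hyinj p i (Finset.mem_filter.1 hi).1 j (Finset.mem_filter.1 hj).1 h
      rw [this]
    have hP2 : ∀ p, Set.InjOn Prod.snd ((P p : Finset (B × B)) : Set (B × B)) := by
      intro p s hs t ht h
      obtain ⟨i, hi, rfl⟩ := Finset.mem_image.1 (Finset.mem_coe.1 hs)
      obtain ⟨j, hj, rfl⟩ := Finset.mem_image.1 (Finset.mem_coe.1 ht)
      have := hxinj p i (Finset.mem_filter.1 hi).1 j (Finset.mem_filter.1 hj).1 h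
      rw [this]
    have hP3 : ∀ p, ∀ s ∈ P p, s.1 ≠ s.2 := by
      intro p s hs
      obtain ⟨i, hi, rfl⟩ := Finset.mem_image.1 hs
      have := (Finset.mem_filter.1 hi).2
      exact fun h => this h.symm
    obtain ⟨s, hs, t, ht, hst, hnst⟩ := g₂.rigid (P p) (P q) (hPcard p hp) (hPcard q hq)
      (hP1 p) (hP2 p) (hP1 q) (hP2 q) (hP3 p) (hP3 q)
    obtain ⟨i, hi, rfl⟩ := Finset.mem_image.1 hs
    obtain ⟨j, hj, rfl⟩ := Finset.mem_image.1 ht
    have hi2 := hmemC p i (Finset.mem_filter.1 hi).1
    have hj2 := hmemC q j (Finset.mem_filter.1 hj).1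
    refine ⟨i, hi2.1, j, hj2.1, Or.inl ⟨?_, hnst⟩, Or.inr ⟨hst, ?_⟩⟩
    · rw [hi2.2.1, hj2.2.1]; exact hpq
    · rw [hi2.2.2, hj2.2.2]; exact hnoc

end Pool.Agent.ChromScheme
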