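import Pool.Agent.ChromScheme.Random

/-!
Existence of good graphs.
-/

namespace Pool.Agent.ChromScheme

open Finset

/-- delete all edges lying in triangles -/
def clean {V : Type*} (G : Finset (Sym2 V)) : SimpleGraph V where
  Adj u v := adj G u v ∧ ∀ w, ¬ (adj G u w ∧ adj G v w)
  symm := ⟨fun _ _ h => ⟨adj_comm.1 h.1, fun w hw => h.2 w ⟨hw.2, hw.1⟩⟩⟩
  loopless := ⟨fun _ h => h.1.1 rfl⟩

theorem good_of_slots {V : Type*} [Fintype V] [DecidableEq V] {m d : ℕ} (G : Finset (Sym2 V))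
    (hG : ∀ x : Quad V, Valid m x → ¬ Bad x G) (hd : 0 < d) (hcard : d * (2 * m) ≤ Fintype.card V)
    (σ : V → V) (hσ : Function.Injective σ) (hσ' : ∀ u, σ u ≠ u) : Good (clean G) d := by
  classical
  have rigid : ∀ M M' : Finset (V × V), Fintype.card V ≤ d * M.card →
      Fintype.card V ≤ d * M'.card →
      Set.InjOn Prod.fst (M : Set (V × V)) → Set.InjOn Prod.snd (M : Set (V × V)) →
      Set.InjOn Prod.fst (M' : Set (V × V)) → Set.InjOn Prod.snd (M' : Set (V × V)) →
      (∀ p ∈ M, p.1 ≠ p.2) → (∀ p ∈ M', p.1 ≠ p.2) →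
      ∃ p ∈ M, ∃ q ∈ M', (clean G).Adj p.1 q.1 ∧ Noc (clean G) p.2 q.2 := by
    intro M M' hM hM' h1 h2 h1' h2' hne hne'
    have hMc : 2 * m ≤ M.card := Nat.le_of_mul_le_mul_left (hcard.trans hM) hd
    have hMc' : 2 * m ≤ M'.card := Nat.le_of_mul_le_mul_left (hcard.trans hM') hd
    obtain ⟨M₀, hM₀, hM₀c⟩ := Finset.exists_subset_card_eq (s := M) (n := m) (by omega)
    set N' := M'.filter (fun p => p.1 ∉ M₀.image Prod.fst) with hN'
    have hN'c : m ≤ N'.card := by
      have h3 : (M'.filter (fun p => ¬ p.1 ∉ M₀.image Prod.fst)).card ≤ m := by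
        rw [← hM₀c]
        calc (M'.filter (fun p => ¬ p.1 ∉ M₀.image Prod.fst)).card
            = ((M'.filter (fun p => ¬ p.1 ∉ M₀.image Prod.fst)).image Prod.fst).card := by
              rw [Finset.card_image_of_injOn (h1'.mono (by
                intro p hp
                exact (Finset.mem_filter.1 hp).1))]
          _ ≤ (M₀.image Prod.fst).card := by
              refine Finset.card_le_card ?_
              intro u hu
              obtain ⟨p, hp, rfl⟩ := Finset.mem_image.1 hu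
              exact not_not.1 (Finset.mem_filter.1 hp).2
          _ ≤ M₀.card := Finset.card_image_le
      have h4 := Finset.card_filter_add_card_filter_not (s := M')
        (fun p : V × V => p.1 ∉ M₀.image Prod.fst)
      change N'.card + _ = _ at h4
      omega
    obtain ⟨M₁, hM₁, hM₁c⟩ := Finset.exists_subset_card_eq (s := N') (n := m) hN'c
    have hM₁' : M₁ ⊆ M' := hM₁.trans (Finset.filter_subset _ _)
    -- the functions
    have hfun : ∀ (P : Finset (V × V)), Set.InjOn Prod.fst (P : Set (V × V)) →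
        ∃ b : V → V, ∀ p ∈ P, b p.1 = p.2 := by
      intro P hP
      refine ⟨fun u => if h : ∃ c, (u, c) ∈ P then h.choose else u, ?_⟩
      intro p hp
      have hex : ∃ c, (p.1, c) ∈ P := ⟨p.2, hp⟩
      simp only [dif_pos hex]
      have := hP (Finset.mem_coe.2 hex.choose_spec) (Finset.mem_coe.2 hp) rfl
      exact congrArg Prod.snd this
    obtain ⟨b, hb⟩ := hfun M₀ (h1.mono (by exact_mod_cast hM₀))
    obtain ⟨b', hb'⟩ := hfun M₁ (h1'.mono (by exact_mod_cast hM₁'))
    have hval : Valid m ((M₀.image Prod.fst, M₁.image Prod.fst, b, b') : Quad V) := by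
      refine ⟨?_, ?_, ?_, ?_, ?_, ?_, ?_⟩
      · rw [Finset.disjoint_left]
        intro u hu hu'
        obtain ⟨p, hp, rfl⟩ := Finset.mem_image.1 hu'
        exact (Finset.mem_filter.1 (hM₁ hp)).2 hu
      · simp only
        rw [Finset.card_image_of_injOn (h1.mono (by exact_mod_cast hM₀)), hM₀c]
      · simp only
        rw [Finset.card_image_of_injOn (h1'.mono (by exact_mod_cast hM₁')), hM₁c]
      · intro u hu v hv huv
        simp only [Finset.coe_image, Set.mem_image] at hu hv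
        obtain ⟨p, hp, rfl⟩ := hu
        obtain ⟨q, hq, rfl⟩ := hv
        simp only at huv
        rw [hb p hp, hb q hq] at huv
        rw [h2 (hM₀ hp) (hM₀ hq) huv]
      · intro u hu v hv huv
        simp only [Finset.coe_image, Set.mem_image] at hu hv
        obtain ⟨p, hp, rfl⟩ := hu
        obtain ⟨q, hq, rfl⟩ := hv
        simp only at huv
        rw [hb' p hp, hb' q hq] at huv
        rw [h2' (hM₁' hp) (hM₁' hq) huv]
      · intro u hu
        obtain ⟨p, hp, rfl⟩ := Finset.mem_image.1 hu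
        simp only
        rw [hb p hp]
        exact (hne p (hM₀ hp)).symm
      · intro u hu
        obtain ⟨p, hp, rfl⟩ := Finset.mem_image.1 hu
        simp only
        rw [hb' p hp]
        exact (hne' p (hM₁' hp)).symm
    have hnb := hG _ hval
    unfold Bad at hnb
    push Not at hnb
    obtain ⟨z, hz, hzG, hzs⟩ := hnb
    have hz' := Finset.mem_filter.1 hz
    have hzm := Finset.mem_product.1 hz'.1
    obtain ⟨p, hp, hpz⟩ := Finset.mem_image.1 hzm.1
    obtain ⟨q, hq, hqz⟩ := Finset.mem_image.1 hzm.2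
    unfold Spoiled at hzs
    push Not at hzs
    obtain ⟨hs1, hs2⟩ := hzs
    simp only at hs1 hs2 hz' hzG
    have hne0 : z.1 ≠ z.2 := by
      intro h
      have h5 := hzm.1
      rw [h] at h5
      exact Finset.disjoint_left.1 hval.1 h5 hzm.2
    refine ⟨p, hM₀ hp, q, hM₁' hq, ?_, ?_⟩
    · rw [hpz, hqz]
      exact ⟨⟨hne0, hzG⟩, fun w hw => hs1 w hw.1 hw.2⟩
    · have e1 : b z.1 = p.2 := by rw [← hpz]; exact hb p hp
      have e2 : b' z.2 = q.2 := by rw [← hqz]; exact hb' q hq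
      rw [e1, e2] at hs2 hz'
      exact ⟨hz'.2.2.2, fun w hw => hs2 w hw.1.1 hw.2.1⟩
  refine ⟨?_, ?_, rigid⟩
  · intro u v w h1 h2 h3
    exact h1.2 w ⟨h3.1, h2.1⟩
  · intro U U' hU hU'
    have hinj : ∀ W : Finset V, Set.InjOn (fun u => (u, σ u)) (W : Set V) := by
      intro W a _ b _ h
      exact congrArg Prod.fst h
    have hc : ∀ W : Finset V, (W.image (fun u => (u, σ u))).card = W.card :=
      fun W => Finset.card_image_of_injOn (hinj W)
    have hf1 : ∀ W : Finset V, Set.InjOn Prod.fst ((W.image (fun u => (u, σ u)) : Finset (V × V)) : Set (V × V)) := by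
      intro W p hp q hq h
      obtain ⟨a, _, rfl⟩ := Finset.mem_image.1 (Finset.mem_coe.1 hp)
      obtain ⟨c, _, rfl⟩ := Finset.mem_image.1 (Finset.mem_coe.1 hq)
      simp only at h
      rw [h]
    have hf2 : ∀ W : Finset V, Set.InjOn Prod.snd ((W.image (fun u => (u, σ u)) : Finset (V × V)) : Set (V × V)) := by
      intro W p hp q hq h
      obtain ⟨a, _, rfl⟩ := Finset.mem_image.1 (Finset.mem_coe.1 hp)
      obtain ⟨c, _, rfl⟩ := Finset.mem_image.1 (Finset.mem_coe.1 hq)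
      have := hσ h
      rw [this]
    have hf3 : ∀ W : Finset V, ∀ p ∈ W.image (fun u => (u, σ u)), p.1 ≠ p.2 := by
      intro W p hp
      obtain ⟨a, _, rfl⟩ := Finset.mem_image.1 hp
      exact (hσ' a).symm
    obtain ⟨p, hp, q, hq, hpq, _⟩ := rigid (U.image (fun u => (u, σ u)))
      (U'.image (fun u => (u, σ u))) (by rw [hc]; exact hU) (by rw [hc]; exact hU')
      (hf1 _) (hf2 _) (hf1 _) (hf2 _) (hf3 _) (hf3 _)
    obtain ⟨a, ha, rfl⟩ := Finset.mem_image.1 hp
    obtain ⟨c, hc', rfl⟩ := Finset.mem_image.1 hq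
    exact ⟨a, ha, c, hc', hpq⟩

theorem one_sub_pow_le {q : ℕ} (hq : 0 < q) : (1 - (1 / (q : ℝ)) / 2) ^ (2 * q) ≤ 1 / 2 := by
  have hq' : (1 : ℝ) ≤ q := by exact_mod_cast hq
  set x : ℝ := (1 / (q : ℝ)) / 2 with hx
  have hx0 : 0 ≤ x := by positivity
  have hx1 : x ≤ 1 / 2 := by
    rw [hx]
    have : 1 / (q : ℝ) ≤ 1 := by
      rw [div_le_one (by linarith)]; exact hq'
    linarith
  have h1 : (2 : ℝ) ≤ (1 + x) ^ (2 * q) := by
    have := one_add_mul_le_pow (a := x) (by linarith) (2 * q)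
    have h2 : ((2 * q : ℕ) : ℝ) * x = 1 := by
      rw [hx]; push_cast; field_simp
    linarith
  have h2 : (1 - x) ^ (2 * q) * (1 + x) ^ (2 * q) ≤ 1 := by
    rw [← mul_pow]
    refine pow_le_one₀ (mul_nonneg (by linarith) (by linarith)) ?_
    nlinarith
  have h3 : 0 ≤ (1 - x) ^ (2 * q) := pow_nonneg (by linarith) _
  nlinarith

theorem card_quad {N s : ℕ} (h : N = 2 ^ s) :
    Fintype.card (Quad (Fin N)) = 2 ^ (N * (2 * s + 2)) := by
  have h1 : Fintype.card (Quad (Fin N)) = 2 ^ N * (2 ^ N * (N ^ N * N ^ N)) := by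
    simp only [Quad, Fintype.card_prod, Fintype.card_finset, Fintype.card_fun, Fintype.card_fin]
  have h2 : ∀ M : ℕ, N ^ M = 2 ^ (s * M) := by
    intro M
    rw [h, pow_mul]
  rw [h1, h2 N, ← pow_add, ← pow_add, ← pow_add]
  congr 1
  ring

theorem two_pow_mul_half {a b : ℕ} (h : a + 2 ≤ b) : (2 : ℝ) ^ a * (1 / 2) ^ b ≤ 1 / 4 := by
  have h2 : (1 / 2 : ℝ) ^ b ≤ (1 / 2) ^ (a + 2) :=
    pow_le_pow_of_le_one (by norm_num) (by norm_num) h
  calc (2 : ℝ) ^ a * (1 / 2) ^ b ≤ 2 ^ a * (1 / 2) ^ (a + 2) :=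
        mul_le_mul_of_nonneg_left h2 (by positivity)
    _ = 1 / 4 := by
        rw [pow_add, ← mul_assoc, ← mul_pow]; norm_num

theorem exists_slots_core {t j N q r m K : ℕ} (hj : j = 3 * t + 20) (hN : N = 2 ^ (3 * j))
    (hq : q = 2 ^ (2 * j)) (hr : r = 2 ^ (3 * j + t + 13)) (hm : m = 2 ^ (3 * j - t - 1))
    (hK : K = 2 ^ j) :
    ∃ G : Finset (Sym2 (Fin N)), ∀ x : Quad (Fin N), Valid m x → ¬ Bad x G := by
  have hq0 : 0 < q := by rw [hq]; positivity
  have hcardN : (Fintype.card (Fin N) : ℝ) = N := by rw [Fintype.card_fin]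
  have hjK : j < K := by rw [hK]; exact Nat.lt_two_pow_self
  have htlt : t < 2 ^ t := Nat.lt_two_pow_self
  have hNq : N = q * K := by rw [hN, hq, hK, ← pow_add]; congr 1; ring
  have hqK : q = K * K := by rw [hq, hK, ← pow_add]; congr 1; ring
  have hrN : r = N * 2 ^ (t + 13) := by rw [hr, hN, ← pow_add]; congr 1
  have hmm : m * m = 2 * (16 * (q * r)) := by
    have h1 : (3 * j - t - 1) + (3 * j - t - 1) = (2 * j + (3 * j + t + 13)) + 5 := by omega
    rw [hm, hq, hr, ← pow_add, ← pow_add, h1, pow_add]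
    ring
  have hm6 : 6 ≤ m := by
    rw [hm]
    calc 6 ≤ 2 ^ 3 := by norm_num
      _ ≤ 2 ^ (3 * j - t - 1) := Nat.pow_le_pow_right (by norm_num) (by omega)
  have h13 : 6 * j + 4 ≤ 2 ^ (t + 13) := by
    have h2 : 2 ^ (t + 13) = 2 ^ t * 8192 := by rw [pow_add]; norm_num
    rw [h2]
    omega
  have hKK : 2 ≤ K := by omega
  clear hq hm hr hK
  have hqR : (q : ℝ) = K * K := by rw [hqK]; push_cast; ring
  have hNR : (N : ℝ) = q * K := by rw [hNq]; push_cast; ring
  have hK0 : (0 : ℝ) < K := by exact_mod_cast (by omega : 0 < K)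
  have hqR0 : (0 : ℝ) < q := by exact_mod_cast hq0
  obtain ⟨p, hp⟩ : ∃ p : ℝ, p = 1 / (q : ℝ) := ⟨_, rfl⟩
  have hp0 : 0 ≤ p := by rw [hp]; positivity
  have hp1 : p ≤ 1 / 2 := by
    rw [hp]
    refine one_div_le_one_div_of_le (by norm_num) ?_
    have : 2 ≤ q := by nlinarith
    exact_mod_cast this
  have hqp : (q : ℝ) * p = 1 := by rw [hp]; field_simp
  refine exists_slots (V := Fin N) (m := m) (r := r) (k := K) (p := p) hp0 hp1 ?_ ?_ ?_ ?_ ?_
  · rw [hcardN, hNR]
    have : (16 : ℝ) * (q * K) * p = 16 * K := by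
      calc (16 : ℝ) * (q * K) * p = 16 * K * (q * p) := by ring
        _ = 16 * K := by rw [hqp, mul_one]
    rw [this]
    push_cast
    linarith
  · push_cast
    rw [hcardN]
    have : (16 : ℝ) * (2 * (N * (16 * K * (16 * K)))) * p = 8192 * N := by
      calc (16 : ℝ) * (2 * (N * (16 * K * (16 * K)))) * p = 8192 * N * ((K * K) * p) := by ring
        _ = 8192 * N := by rw [← hqR, hqp, mul_one]
    rw [this]
    have h1 : 8192 * N ≤ r := by
      rw [hrN, mul_comm]
      refine Nat.mul_le_mul_left _ ?_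
      rw [pow_add]
      have : 0 < 2 ^ t := by positivity
      omega
    exact_mod_cast h1
  · rw [hcardN]
    have h1 : (N : ℝ) = 2 ^ (3 * j) := by rw [hN]; push_cast; rfl
    rw [h1]
    exact two_pow_mul_half (by omega)
  · rw [card_quad hN]
    have h1 : N * (2 * (3 * j) + 2) + 2 ≤ r := by
      rw [hrN]
      calc N * (2 * (3 * j) + 2) + 2 ≤ N * (2 * (3 * j) + 2) + N * 2 := by
            have : 0 < N := by rw [hNq]; positivity
            omega
        _ = N * (6 * j + 4) := by ring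
        _ ≤ N * 2 ^ (t + 13) := Nat.mul_le_mul_left _ h13
    have h2 : ((2 ^ (N * (2 * (3 * j) + 2)) : ℕ) : ℝ) = 2 ^ (N * (2 * (3 * j) + 2)) := by
      push_cast; rfl
    rw [h2]
    exact two_pow_mul_half h1
  · intro x hx
    have h1 := card_tested hm6 hx
    rw [← card_slots hx] at h1
    have h2 : (2 * q) * (6 * r) ≤ (slots x).card := by
      have h4 : (2 * q) * (6 * r) = 12 * (q * r) := by ring
      rw [h4]
      omega
    have hb0 : 0 ≤ 1 - p / 2 := by linarith
    have hb1 : 1 - p / 2 ≤ 1 := by linarith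
    have h5 : (1 - p / 2) ^ (slots x).card ≤ (1 / 2) ^ (6 * r) := by
      calc (1 - p / 2) ^ (slots x).card ≤ (1 - p / 2) ^ ((2 * q) * (6 * r)) :=
            pow_le_pow_of_le_one hb0 hb1 h2
        _ = ((1 - p / 2) ^ (2 * q)) ^ (6 * r) := by rw [pow_mul]
        _ ≤ (1 / 2) ^ (6 * r) := by
            rw [hp]
            exact pow_le_pow_left₀ (pow_nonneg (hp ▸ hb0) _) (one_sub_pow_le hq0) _
    calc 2 ^ (5 * r) * (1 - p / 2) ^ (slots x).card ≤ 2 ^ (5 * r) * (1 / 2) ^ (6 * r) :=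
          mul_le_mul_of_nonneg_left h5 (by positivity)
      _ = (1 / 2) ^ r := by
          rw [show 6 * r = 5 * r + r by ring, pow_add, ← mul_assoc, ← mul_pow]
          norm_num

theorem exists_shift {N : ℕ} (hN : 2 ≤ N) :
    ∃ σ : Fin N → Fin N, Function.Injective σ ∧ ∀ u, σ u ≠ u := by
  obtain ⟨n, rfl⟩ : ∃ n, N = n + 2 := ⟨N - 2, by omega⟩
  refine ⟨fun u => u + 1, fun a b h => by simpa using h, ?_⟩
  intro u hu
  simp at hu

/-- good graphs exist -/
theorem exists_good (t : ℕ) : ∃ N : ℕ, 0 < N ∧ (∃ s, N = 2 ^ s) ∧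
    ∃ F : SimpleGraph (Fin N), Good F (2 ^ t) := by
  obtain ⟨j, hj⟩ : ∃ j, j = 3 * t + 20 := ⟨_, rfl⟩
  obtain ⟨N, hN⟩ : ∃ N, N = 2 ^ (3 * j) := ⟨_, rfl⟩
  obtain ⟨m, hm⟩ : ∃ m, m = 2 ^ (3 * j - t - 1) := ⟨_, rfl⟩
  obtain ⟨G, hG⟩ := exists_slots_core hj hN rfl rfl hm rfl
  have hN2 : 2 ≤ N := by
    rw [hN]
    calc 2 = 2 ^ 1 := by norm_num
      _ ≤ 2 ^ (3 * j) := Nat.pow_le_pow_right (by norm_num) (by omega)
  obtain ⟨σ, hσ, hσ'⟩ := exists_shift hN2
  refine ⟨N, by omega, ⟨3 * j, hN⟩, clean G, good_of_slots (m := m) G hG (by positivity) ?_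
    σ hσ hσ'⟩
  have h1 : 2 * m = 2 ^ (3 * j - t) := by
    rw [hm, ← pow_succ']; congr 1; omega
  rw [Fintype.card_fin, h1, hN, ← pow_add]
  exact Nat.pow_le_pow_right (by norm_num) (by omega)

end Pool.Agent.ChromScheme
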