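import Pool.Agent.ChromScheme.Scheme

/-!
Adding universal vertices.
-/

namespace Pool.Agent.ChromScheme

open Finset

/-- `G` plus one universal vertex -/
def addV {V : Type*} (G : SimpleGraph V) : SimpleGraph (Option V) where
  Adj a b := a ≠ b ∧ ∀ u v, a = some u → b = some v → G.Adj u v
  symm := ⟨fun _ _ h => ⟨h.1.symm, fun u v hu hv => (h.2 v u hv hu).symm⟩⟩
  loopless := ⟨fun _ h => h.1 rfl⟩

theorem addV_colorable {V : Type*} {G : SimpleGraph V} {n : ℕ} (h : G.Colorable n) :
    (addV G).Colorable (n + 1) := by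
  obtain ⟨C⟩ := h
  refine ⟨SimpleGraph.Coloring.mk
    (fun a : Option V => match a with
      | none => Fin.last n
      | some v => (C v).castSucc) ?_⟩
  intro a b hab
  rcases a with _ | a <;> rcases b with _ | b
  · exact absurd rfl hab.1
  · simp only [ne_eq]
    exact fun h => absurd h.symm (Fin.castSucc_lt_last _).ne
  · simp only [ne_eq]
    exact fun h => absurd h (Fin.castSucc_lt_last _).ne
  · simp only [ne_eq, Fin.castSucc_inj]
    exact C.valid (hab.2 a b rfl rfl)

theorem colorable_of_addV {V : Type*} {G : SimpleGraph V} {n : ℕ}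
    (h : (addV G).Colorable (n + 1)) : G.Colorable n := by
  obtain ⟨C⟩ := h
  have hne : ∀ v : V, C (some v) ≠ C none := by
    intro v
    refine C.valid ⟨by simp, ?_⟩
    intro u w _ hw
    simp at hw
  have hex : ∀ v : V, ∃ z : Fin n, (C none).succAbove z = C (some v) :=
    fun v => Fin.exists_succAbove_eq (hne v)
  choose g hg using hex
  refine ⟨SimpleGraph.Coloring.mk g ?_⟩
  intro a b hab h
  have h1 : C (some a) = C (some b) := by rw [← hg, ← hg, h]
  refine C.valid (v := some a) (w := some b) ⟨?_, ?_⟩ h1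
  · intro h2
    exact hab.ne (Option.some_injective _ h2)
  · intro u v hu hv
    cases hu
    cases hv
    exact hab

/-- walks lift along embeddings -/
theorem lift_walk {W W' : Type*} {H : SimpleGraph W} {H' : SimpleGraph W'} (e : H' ↪g H) :
    ∀ {u v : W} (p : H.Walk u v) (u' v' : W'), e u' = u → e v' = v →
      (∀ n ≤ p.length, ∃ w', e w' = p.getVert n) →
      ∃ q : H'.Walk u' v', q.length = p.length ∧ ∀ n, e (q.getVert n) = p.getVert n := by
  intro u v p
  induction p with
  | nil =>
    intro u' v' hu hv _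
    have huv : u' = v' := e.injective (hu.trans hv.symm)
    subst huv
    refine ⟨SimpleGraph.Walk.nil, rfl, ?_⟩
    intro n
    simpa using hu
  | @cons a b c hab p ih =>
    intro u' v' hu hv hp
    obtain ⟨w', hw'⟩ := hp 1 (by simp)
    have hb : e w' = b := by simpa using hw'
    obtain ⟨q, hq1, hq2⟩ := ih w' v' hb hv (by
      intro n hn
      obtain ⟨z, hz⟩ := hp (n + 1) (by simpa using hn)
      exact ⟨z, by simpa using hz⟩)
    have hadj : H'.Adj u' w' := by
      rw [← e.map_adj_iff, hu, hb]
      exact hab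
    refine ⟨SimpleGraph.Walk.cons hadj q, by simp [hq1], ?_⟩
    intro n
    cases n with
    | zero => simpa using hu
    | succ n => simpa using hq2 n

theorem scheme_restrict {W W' : Type*} {H : SimpleGraph W} {H' : SimpleGraph W'} (e : H' ↪g H)
    {k : ℕ} (f : H.Coloring (Fin (k + 1))) (x : Fin (k + 1) → W) (hfx : ∀ i, f (x i) = i)
    (hpath : ∀ i j, i < j → ∃ p : H.Walk (x i) (x j), p.IsPath ∧
      ∀ n ≤ p.length, f (p.getVert n) = if Even n then i else j)
    (c : Fin (k + 1)) (h1 : ∀ w', f (e w') ≠ c) (h2 : ∀ w, f w ≠ c → ∃ w', e w' = w) :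
    HasScheme H' k := by
  choose g hg using fun w' => Fin.exists_succAbove_eq (h1 w')
  have hx : ∀ i : Fin k, ∃ w', e w' = x (c.succAbove i) := by
    intro i
    refine h2 _ ?_
    rw [hfx]
    exact Fin.succAbove_ne c i
  choose y hy using hx
  refine ⟨SimpleGraph.Coloring.mk g ?_, y, ?_, ?_⟩
  · intro a b hab h
    have h3 : f (e a) = f (e b) := by rw [← hg, ← hg, h]
    exact f.valid (e.map_adj_iff.2 hab) h3
  · intro i
    change g (y i) = i
    have h3 : c.succAbove (g (y i)) = c.succAbove i := by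
      rw [hg, hy, hfx]
    exact Fin.succAbove_right_injective h3
  · intro i j hij
    obtain ⟨p, hp, hcol⟩ := hpath (c.succAbove i) (c.succAbove j)
      ((Fin.strictMono_succAbove c) hij)
    obtain ⟨q, hq1, hq2⟩ := lift_walk e p (y i) (y j) (hy i) (hy j) (by
      intro n hn
      refine h2 _ ?_
      rw [hcol n hn]
      split_ifs
      · exact Fin.succAbove_ne c i
      · exact Fin.succAbove_ne c j)
    refine ⟨q, ?_, ?_⟩
    · rw [← SimpleGraph.Walk.IsPath.getVert_injOn_iff]
      intro a ha b hb hab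
      refine hp.getVert_injOn ?_ ?_ ?_
      · simpa [hq1] using ha
      · simpa [hq1] using hb
      · rw [← hq2, ← hq2, hab]
    · intro n hn
      change g (q.getVert n) = _
      have h3 : c.succAbove (g (q.getVert n)) = c.succAbove (if Even n then i else j) := by
        rw [hg, hq2, hcol n (by omega)]
        split_ifs <;> rfl
      exact Fin.succAbove_right_injective h3

theorem no_scheme_addV {V : Type*} {G : SimpleGraph V} {k : ℕ}
    (hG : ∀ G' : G.Subgraph, ¬ HasScheme G'.coe k) (G' : (addV G).Subgraph) :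
    ¬ HasScheme G'.coe (k + 1) := by
  classical
  rintro ⟨f, x, hfx, hpath⟩
  obtain ⟨c, hc⟩ : ∃ c : Fin (k + 1), ∀ h : none ∈ G'.verts, f ⟨none, h⟩ = c := by
    by_cases h : none ∈ G'.verts
    · exact ⟨f ⟨none, h⟩, fun _ => rfl⟩
    · exact ⟨0, fun h' => absurd h' h⟩
  set G'' : G.Subgraph :=
    { verts := {v | ∃ h : some v ∈ G'.verts, f ⟨some v, h⟩ ≠ c}
      Adj := fun u v => G'.Adj (some u) (some v) ∧
        (∃ h : some u ∈ G'.verts, f ⟨some u, h⟩ ≠ c) ∧
        (∃ h : some v ∈ G'.verts, f ⟨some v, h⟩ ≠ c)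
      adj_sub := fun h => (G'.adj_sub h.1).2 _ _ rfl rfl
      edge_vert := fun h => h.2.1
      symm := ⟨fun u v h => ⟨h.1.symm, h.2.2, h.2.1⟩⟩ } with hG''
  refine hG G'' (scheme_restrict (H := G'.coe)
    { toFun := fun w => ⟨some w.1, w.2.1⟩
      inj' := ?_
      map_rel_iff' := ?_ } f x hfx hpath c ?_ ?_)
  · intro a b hab
    have := congrArg Subtype.val hab
    exact Subtype.ext (Option.some_injective _ this)
  · intro a b
    constructor
    · intro h
      exact ⟨h, a.2, b.2⟩
    · intro h
      exact h.1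
  · intro w
    exact w.2.2
  · rintro ⟨w, hw⟩ hfw
    rcases w with _ | w
    · exact absurd (hc hw) hfw
    · exact ⟨⟨w, ⟨hw, hfw⟩⟩, rfl⟩

/-- joining `t` universal vertices -/
theorem exists_join {k : ℕ} (t : ℕ) (V : Type) [Fintype V] (G : SimpleGraph V)
    (h1 : G.Colorable k) (h2 : ∀ m < k, ¬ G.Colorable m)
    (hG : ∀ G' : G.Subgraph, ¬ HasScheme G'.coe k) :
    ∃ (W : Type) (_ : Fintype W) (H : SimpleGraph W), H.Colorable (k + t) ∧
      (∀ m < k + t, ¬ H.Colorable m) ∧ ∀ H' : H.Subgraph, ¬ HasScheme H'.coe (k + t) := by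
  induction t with
  | zero => exact ⟨V, inferInstance, G, h1, h2, hG⟩
  | succ t ih =>
    obtain ⟨W, _, H, a1, a2, a3⟩ := ih
    refine ⟨Option W, inferInstance, addV H, addV_colorable a1, ?_, ?_⟩
    · intro m hm hcol
      rcases m with _ | m
      · have : IsEmpty (Option W) := SimpleGraph.colorable_zero_iff.1 hcol
        exact this.false none
      · exact a2 m (by omega) (colorable_of_addV hcol)
    · exact no_scheme_addV a3

end Pool.Agent.ChromScheme
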