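import Mathlib

/-!
Product weights on finite sets of slots.
-/

namespace Pool.Agent.ChromScheme

open Finset

variable {S : Type*} [Fintype S] [DecidableEq S]

/-- Bernoulli product weight -/
noncomputable def wt (p : ℝ) (G : Finset S) : ℝ := p ^ G.card * (1 - p) ^ (Fintype.card S - G.card)

omit [DecidableEq S] in
theorem wt_nonneg {p : ℝ} (h0 : 0 ≤ p) (h1 : p ≤ 1) (G : Finset S) : 0 ≤ wt p G :=
  mul_nonneg (pow_nonneg h0 _) (pow_nonneg (by linarith) _)

omit [DecidableEq S] in
theorem sum_wt (p : ℝ) : ∑ G : Finset S, wt p G = 1 := by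
  classical
  have := Finset.sum_pow_mul_eq_add_pow p (1 - p) (Finset.univ : Finset S)
  rw [Finset.powerset_univ] at this
  unfold wt
  rw [Finset.card_univ] at this
  rw [this]
  simp

theorem sum_wt_half (p : ℝ) (T : Finset S) :
    ∑ G : Finset S, wt p G * (1 / 2 : ℝ) ^ (G ∩ T).card = (1 - p / 2) ^ T.card := by
  have h := Finset.prod_add (fun e : S => p * (if e ∈ T then (1 / 2 : ℝ) else 1))
    (fun _ => 1 - p) (Finset.univ : Finset S)
  rw [Finset.powerset_univ] at h
  have hL : ∏ i : S, (p * (if i ∈ T then (1 / 2 : ℝ) else 1) + (1 - p)) = (1 - p / 2) ^ T.card := by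
    have : ∀ i : S, (p * (if i ∈ T then (1 / 2 : ℝ) else 1) + (1 - p)) =
        if i ∈ T then (1 - p / 2) else 1 := by
      intro i
      split_ifs <;> ring
    simp_rw [this]
    rw [Finset.prod_ite_mem, Finset.univ_inter, Finset.prod_const]
  rw [hL] at h
  rw [h]
  refine Finset.sum_congr rfl fun G _ => ?_
  rw [Finset.prod_mul_distrib, Finset.prod_const, Finset.prod_const, Finset.prod_ite_mem,
    Finset.prod_const, Finset.card_sdiff_of_subset (Finset.subset_univ _), Finset.card_univ]
  unfold wt
  ring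

theorem sum_wt_few {p : ℝ} (h0 : 0 ≤ p) (h1 : p ≤ 1) (T : Finset S) (n : ℕ) :
    ∑ G ∈ Finset.univ.filter (fun G : Finset S => (G ∩ T).card < n), wt p G ≤
      2 ^ n * (1 - p / 2) ^ T.card := by
  rw [← sum_wt_half, Finset.mul_sum]
  calc ∑ G ∈ Finset.univ.filter (fun G : Finset S => (G ∩ T).card < n), wt p G
      ≤ ∑ G ∈ Finset.univ.filter (fun G : Finset S => (G ∩ T).card < n),
          2 ^ n * (wt p G * (1 / 2 : ℝ) ^ (G ∩ T).card) := by
        refine Finset.sum_le_sum fun G hG => ?_
        have hlt := (Finset.mem_filter.1 hG).2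
        have hw := wt_nonneg h0 h1 G
        have h3 : (1 : ℝ) ≤ 2 ^ n * (1 / 2 : ℝ) ^ (G ∩ T).card := by
          have : (2 : ℝ) ^ n = 2 ^ (n - (G ∩ T).card) * 2 ^ (G ∩ T).card := by
            rw [← pow_add]; congr 1; omega
          rw [this, mul_assoc, ← mul_pow]
          norm_num
          exact one_le_pow₀ (by norm_num)
        calc wt p G = wt p G * 1 := (mul_one _).symm
          _ ≤ wt p G * (2 ^ n * (1 / 2 : ℝ) ^ (G ∩ T).card) := mul_le_mul_of_nonneg_left h3 hw
          _ = _ := by ring
    _ ≤ ∑ G : Finset S, 2 ^ n * (wt p G * (1 / 2 : ℝ) ^ (G ∩ T).card) := by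
        refine Finset.sum_le_sum_of_subset_of_nonneg (Finset.subset_univ _) fun G _ _ => ?_
        have hw := wt_nonneg h0 h1 G
        positivity

/-- the key first moment estimate -/
theorem sum_wt_spoil {p : ℝ} (h0 : 0 ≤ p) (h1 : p < 1) (D : Finset S → Prop)
    (hD : ∀ G R, D G → D (G \ R)) (Φ : Finset S → Finset S) (L r : ℕ)
    (hΦ : ∀ G, D G → (Φ G).card ≤ L) [DecidablePred fun G : Finset S => D G ∧
      ∃ R, R ⊆ G ∧ R.card = r ∧ R ⊆ Φ (G \ R)] :
    ∑ G ∈ Finset.univ.filter (fun G : Finset S => D G ∧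
      ∃ R, R ⊆ G ∧ R.card = r ∧ R ⊆ Φ (G \ R)), wt p G ≤ (L.choose r : ℝ) * (p / (1 - p)) ^ r := by
  classical
  have hs : 0 ≤ p / (1 - p) := div_nonneg h0 (by linarith)
  set P : Finset (Finset S × Finset S) := Finset.univ.filter (fun x =>
    D x.1 ∧ x.2.card = r ∧ x.2 ⊆ Φ x.1) with hP
  set P' : Finset (Finset S × Finset S) := P.filter (fun x => Disjoint x.1 x.2) with hP'
  calc ∑ G ∈ Finset.univ.filter (fun G : Finset S => D G ∧
      ∃ R, R ⊆ G ∧ R.card = r ∧ R ⊆ Φ (G \ R)), wt p G
      ≤ ∑ x ∈ P', wt p (x.1 ∪ x.2) := by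
        -- choose R
        have hch : ∀ G ∈ Finset.univ.filter (fun G : Finset S => D G ∧
            ∃ R, R ⊆ G ∧ R.card = r ∧ R ⊆ Φ (G \ R)),
            ∃ x ∈ P', x.1 ∪ x.2 = G := by
          intro G hG
          obtain ⟨hDG, R, hRG, hRc, hRΦ⟩ := (Finset.mem_filter.1 hG).2
          refine ⟨(G \ R, R), ?_, Finset.sdiff_union_of_subset hRG⟩
          refine Finset.mem_filter.2 ⟨Finset.mem_filter.2 ⟨Finset.mem_univ _, hD _ _ hDG, hRc, hRΦ⟩,
            Finset.sdiff_disjoint⟩
        calc ∑ G ∈ Finset.univ.filter (fun G : Finset S => D G ∧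
              ∃ R, R ⊆ G ∧ R.card = r ∧ R ⊆ Φ (G \ R)), wt p G
            ≤ ∑ G ∈ P'.image (fun x => x.1 ∪ x.2), wt p G := by
              refine Finset.sum_le_sum_of_subset_of_nonneg ?_
                (fun G _ _ => wt_nonneg h0 h1.le G)
              intro G hG
              obtain ⟨x, hx, hxG⟩ := hch G hG
              exact Finset.mem_image.2 ⟨x, hx, hxG⟩
          _ ≤ ∑ x ∈ P', wt p (x.1 ∪ x.2) :=
              Finset.sum_image_le_of_nonneg (fun x _ => wt_nonneg h0 h1.le _)
    _ = ∑ x ∈ P', (p / (1 - p)) ^ r * wt p x.1 := by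
        refine Finset.sum_congr rfl fun x hx => ?_
        have hx' := Finset.mem_filter.1 hx
        have hx2 := (Finset.mem_filter.1 hx'.1).2
        have hc : (x.1 ∪ x.2).card = x.1.card + r := by
          rw [Finset.card_union_of_disjoint hx'.2, hx2.2.1]
        have hle : x.1.card + r ≤ Fintype.card S := hc ▸ Finset.card_le_univ _
        unfold wt
        rw [hc]
        have hne : (1 - p) ≠ 0 := by linarith
        have : Fintype.card S - x.1.card = (Fintype.card S - (x.1.card + r)) + r := by omega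
        rw [this, pow_add, pow_add, div_pow]
        field_simp
    _ ≤ ∑ x ∈ P, (p / (1 - p)) ^ r * wt p x.1 := by
        refine Finset.sum_le_sum_of_subset_of_nonneg (Finset.filter_subset _ _) fun x _ _ => ?_
        exact mul_nonneg (pow_nonneg hs _) (wt_nonneg h0 h1.le _)
    _ ≤ ∑ G : Finset S, (L.choose r : ℝ) * ((p / (1 - p)) ^ r * wt p G) := by
        have : P = (Finset.univ : Finset (Finset S)).biUnion (fun G => P.filter (fun x => x.1 = G)) := by
          ext x
          simp
        rw [← Finset.sum_fiberwise_of_maps_to (s := P) (t := (Finset.univ : Finset (Finset S)))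
          (g := Prod.fst) (fun _ _ => Finset.mem_univ _)]
        refine Finset.sum_le_sum fun G _ => ?_
        have hcard : (P.filter (fun x => x.1 = G)).card ≤ L.choose r := by
          by_cases hDG : D G
          · calc (P.filter (fun x => x.1 = G)).card
                = ((P.filter (fun x => x.1 = G)).image Prod.snd).card := by
                  rw [Finset.card_image_of_injOn]
                  intro x hx y hy hxy
                  have h1 := (Finset.mem_filter.1 hx).2
                  have h2 := (Finset.mem_filter.1 hy).2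
                  exact Prod.ext (h1.trans h2.symm) hxy
              _ ≤ ((Φ G).powersetCard r).card := by
                  refine Finset.card_le_card ?_
                  intro R hR
                  obtain ⟨x, hx, rfl⟩ := Finset.mem_image.1 hR
                  have h1 := (Finset.mem_filter.1 hx)
                  have h2 := (Finset.mem_filter.1 h1.1).2
                  rw [h1.2] at h2
                  exact Finset.mem_powersetCard.2 ⟨h2.2.2, h2.2.1⟩
              _ = (Φ G).card.choose r := Finset.card_powersetCard _ _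
              _ ≤ L.choose r := Nat.choose_le_choose _ (hΦ G hDG)
          · have : P.filter (fun x => x.1 = G) = ∅ := by
              rw [Finset.filter_eq_empty_iff]
              intro x hx hxG
              have h2 := (Finset.mem_filter.1 hx).2
              rw [hxG] at h2
              exact hDG h2.1
            rw [this]; simp
        calc ∑ x ∈ P.filter (fun x => x.1 = G), (p / (1 - p)) ^ r * wt p x.1
            = ∑ x ∈ P.filter (fun x => x.1 = G), (p / (1 - p)) ^ r * wt p G := by
              refine Finset.sum_congr rfl fun x hx => ?_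
              rw [(Finset.mem_filter.1 hx).2]
          _ = ((P.filter (fun x => x.1 = G)).card : ℝ) * ((p / (1 - p)) ^ r * wt p G) := by
              rw [Finset.sum_const, nsmul_eq_mul]
          _ ≤ (L.choose r : ℝ) * ((p / (1 - p)) ^ r * wt p G) := by
              refine mul_le_mul_of_nonneg_right (by exact_mod_cast hcard) ?_
              exact mul_nonneg (pow_nonneg hs _) (wt_nonneg h0 h1.le _)
    _ = (L.choose r : ℝ) * (p / (1 - p)) ^ r := by
        rw [← Finset.mul_sum, ← Finset.mul_sum, sum_wt, mul_one]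

theorem pow_self_le (r : ℕ) : r ^ r ≤ 4 ^ r * r.factorial := by
  have h1 : (r : ℝ) ^ r / r.factorial ≤ Real.exp r := Real.pow_div_factorial_le_exp _ (by positivity) _
  have h2 : Real.exp r ≤ 4 ^ r := by
    have : Real.exp (r : ℝ) = Real.exp 1 ^ r := by
      rw [← Real.exp_nat_mul]; simp
    rw [this]
    refine pow_le_pow_left₀ (Real.exp_pos _).le ?_ _
    have := Real.exp_one_lt_d9
    linarith
  have h3 : (r : ℝ) ^ r ≤ 4 ^ r * r.factorial := by
    have hf : (0 : ℝ) < r.factorial := by exact_mod_cast r.factorial_pos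
    rw [div_le_iff₀ hf] at h1
    nlinarith
  exact_mod_cast h3

theorem choose_mul_pow_le (L r : ℕ) : L.choose r * r ^ r ≤ (4 * L) ^ r := by
  calc L.choose r * r ^ r ≤ L.choose r * (4 ^ r * r.factorial) :=
        Nat.mul_le_mul_left _ (pow_self_le r)
    _ = 4 ^ r * (r.factorial * L.choose r) := by ring
    _ = 4 ^ r * L.descFactorial r := by rw [Nat.descFactorial_eq_factorial_mul_choose]
    _ ≤ 4 ^ r * L ^ r := Nat.mul_le_mul_left _ (Nat.descFactorial_le_pow _ _)
    _ = (4 * L) ^ r := by rw [mul_pow]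

theorem choose_mul_le {p : ℝ} (h0 : 0 ≤ p) (h1 : p ≤ 1 / 2) (L r : ℕ) (h : 16 * (L : ℝ) * p ≤ r) :
    (L.choose r : ℝ) * (p / (1 - p)) ^ r ≤ (1 / 2) ^ r := by
  rcases Nat.eq_zero_or_pos r with rfl | hr
  · simp
  have hrp : (0 : ℝ) < r := by exact_mod_cast hr
  have hc : (L.choose r : ℝ) * (r : ℝ) ^ r ≤ (4 * L) ^ r := by exact_mod_cast choose_mul_pow_le L r
  have hp : p / (1 - p) ≤ 2 * p := by
    rw [div_le_iff₀ (by linarith)]
    nlinarith
  have hp0 : 0 ≤ p / (1 - p) := div_nonneg h0 (by linarith)
  have h2 : (p / (1 - p)) ^ r ≤ (2 * p) ^ r := pow_le_pow_left₀ hp0 hp _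
  have hrr : (0 : ℝ) < (r : ℝ) ^ r := pow_pos hrp _
  have h3 : (L.choose r : ℝ) ≤ (4 * L) ^ r / (r : ℝ) ^ r := by
    rw [le_div_iff₀ hrr]; exact hc
  calc (L.choose r : ℝ) * (p / (1 - p)) ^ r ≤ ((4 * L) ^ r / (r : ℝ) ^ r) * (2 * p) ^ r :=
        mul_le_mul h3 h2 (pow_nonneg hp0 _) (by positivity)
    _ = (8 * L * p / r) ^ r := by
        rw [← div_pow, ← mul_pow]; congr 1; field_simp; ring
    _ ≤ (1 / 2) ^ r := by
        refine pow_le_pow_left₀ (by positivity) ?_ _
        rw [div_le_iff₀ hrp]
        linarith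

theorem sum_wt_spoil' {p : ℝ} (h0 : 0 ≤ p) (h1 : p ≤ 1 / 2) (D : Finset S → Prop)
    (hD : ∀ G R, D G → D (G \ R)) (Φ : Finset S → Finset S) (L r : ℕ)
    (hΦ : ∀ G, D G → (Φ G).card ≤ L) (hr : 16 * (L : ℝ) * p ≤ r)
    [DecidablePred fun G : Finset S => D G ∧
      ∃ R, R ⊆ G ∧ R.card = r ∧ R ⊆ Φ (G \ R)] :
    ∑ G ∈ Finset.univ.filter (fun G : Finset S => D G ∧
      ∃ R, R ⊆ G ∧ R.card = r ∧ R ⊆ Φ (G \ R)), wt p G ≤ (1 / 2) ^ r :=
  (sum_wt_spoil h0 (by linarith) D hD Φ L r hΦ).trans (choose_mul_le h0 h1 L r hr)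

/-- independent sets in digraphs of out-degree two -/
theorem exists_indep {α : Type*} [DecidableEq α] (g₁ g₂ : α → α) (n : ℕ) :
    ∀ E : Finset α, E.card = n → (∀ e ∈ E, g₁ e ≠ e ∧ g₂ e ≠ e) →
    ∃ R ⊆ E, E.card ≤ 5 * R.card ∧ ∀ e ∈ R, g₁ e ∉ R ∧ g₂ e ∉ R := by
  induction n using Nat.strong_induction_on with
  | _ n ih =>
    intro E hE hg
    rcases E.eq_empty_or_nonempty with rfl | hne
    · exact ⟨∅, by simp, by simp, by simp⟩
    -- an element of in-degree at most two
    have hdeg : ∃ e ∈ E, (E.filter (fun a => g₁ a = e ∨ g₂ a = e)).card ≤ 2 := by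
      by_contra hcon
      push Not at hcon
      have h1 : E.card * 3 ≤ ∑ e ∈ E, (E.filter (fun a => g₁ a = e ∨ g₂ a = e)).card := by
        rw [← smul_eq_mul, ← Finset.sum_const]
        exact Finset.sum_le_sum fun e he => hcon e he
      have h2 : ∑ e ∈ E, (E.filter (fun a => g₁ a = e ∨ g₂ a = e)).card ≤ 2 * E.card := by
        calc ∑ e ∈ E, (E.filter (fun a => g₁ a = e ∨ g₂ a = e)).card
            ≤ ∑ e ∈ E, ((E.filter (fun a => g₁ a = e)).card + (E.filter (fun a => g₂ a = e)).card) := by
              refine Finset.sum_le_sum fun e _ => ?_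
              rw [Finset.filter_or]
              exact Finset.card_union_le _ _
          _ = ∑ e ∈ E, (E.filter (fun a => g₁ a = e)).card +
                ∑ e ∈ E, (E.filter (fun a => g₂ a = e)).card := Finset.sum_add_distrib
          _ ≤ E.card + E.card := by
              refine Nat.add_le_add ?_ ?_
              · rw [Finset.sum_card_fiberwise_eq_card_filter]
                exact Finset.card_filter_le _ _
              · rw [Finset.sum_card_fiberwise_eq_card_filter]
                exact Finset.card_filter_le _ _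
          _ = 2 * E.card := by ring
      have := hne.card_pos
      omega
    obtain ⟨e₀, he₀, hdeg⟩ := hdeg
    set Q : Finset α := {e₀, g₁ e₀, g₂ e₀} ∪ E.filter (fun a => g₁ a = e₀ ∨ g₂ a = e₀) with hQ
    have hQc : Q.card ≤ 5 := by
      calc Q.card ≤ _ := Finset.card_union_le _ _
        _ ≤ 3 + 2 := Nat.add_le_add Finset.card_le_three hdeg
    have he₀Q : e₀ ∈ Q := by simp [hQ]
    have hlt : (E \ Q).card < n := by
      rw [← hE]
      refine Finset.card_lt_card ?_
      refine Finset.ssubset_iff_subset_ne.2 ⟨Finset.sdiff_subset, ?_⟩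
      intro h
      rw [← h] at he₀
      exact (Finset.mem_sdiff.1 he₀).2 he₀Q
    obtain ⟨R, hRE, hRc, hR⟩ := ih _ hlt (E \ Q) rfl
      (fun e he => hg e (Finset.mem_sdiff.1 he).1)
    have he₀R : e₀ ∉ R := fun h => (Finset.mem_sdiff.1 (hRE h)).2 he₀Q
    refine ⟨insert e₀ R, ?_, ?_, ?_⟩
    · intro a ha
      rcases Finset.mem_insert.1 ha with rfl | ha
      · exact he₀
      · exact (Finset.mem_sdiff.1 (hRE ha)).1
    · rw [Finset.card_insert_of_notMem he₀R]
      have h1 : E.card ≤ (E \ Q).card + Q.card := by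
        calc E.card ≤ ((E \ Q) ∪ Q).card := by
              refine Finset.card_le_card ?_
              intro a ha
              by_cases haQ : a ∈ Q
              · exact Finset.mem_union_right _ haQ
              · exact Finset.mem_union_left _ (Finset.mem_sdiff.2 ⟨ha, haQ⟩)
          _ ≤ _ := Finset.card_union_le _ _
      omega
    · intro e he
      rcases Finset.mem_insert.1 he with rfl | he
      · have hge := hg e he₀
        constructor
        · intro h
          rcases Finset.mem_insert.1 h with h | h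
          · exact hge.1 h
          · exact (Finset.mem_sdiff.1 (hRE h)).2 (by simp [hQ])
        · intro h
          rcases Finset.mem_insert.1 h with h | h
          · exact hge.2 h
          · exact (Finset.mem_sdiff.1 (hRE h)).2 (by simp [hQ])
      · have heE := Finset.mem_sdiff.1 (hRE he)
        constructor
        · intro h
          rcases Finset.mem_insert.1 h with h | h
          · exact heE.2 (Finset.mem_union_right _ (Finset.mem_filter.2 ⟨heE.1, Or.inl h⟩))
          · exact (hR e he).1 h
        · intro h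
          rcases Finset.mem_insert.1 h with h | h
          · exact heE.2 (Finset.mem_union_right _ (Finset.mem_filter.2 ⟨heE.1, Or.inr h⟩))
          · exact (hR e he).2 h

end Pool.Agent.ChromScheme
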