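import Pool.Agent.ChromScheme.Basic
import Pool.Agent.ChromScheme.Weight

/-!
Random slots: the tested pairs and their witnesses.
-/

namespace Pool.Agent.ChromScheme

open Finset

variable {V : Type*} [Fintype V] [DecidableEq V]

/-- adjacency coded by a set of slots -/
def adj (G : Finset (Sym2 V)) (u v : V) : Prop := u ≠ v ∧ s(u, v) ∈ G

omit [Fintype V] [DecidableEq V] in
theorem adj_comm {G : Finset (Sym2 V)} {u v : V} : adj G u v ↔ adj G v u := by
  unfold adj
  rw [Sym2.eq_swap, ne_comm]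

/-- neighbourhood -/
def nb (G : Finset (Sym2 V)) (w : V) : Finset V :=
  Finset.univ.filter (fun v => w ≠ v ∧ s(w, v) ∈ G)

theorem mem_nb {G : Finset (Sym2 V)} {w v : V} : v ∈ nb G w ↔ adj G w v := by
  simp [nb, adj]

/-- a quadruple `(U, U', b, b')` -/
abbrev Quad (V : Type*) := Finset V × Finset V × (V → V) × (V → V)

/-- admissible quadruples -/
def Valid (m : ℕ) (x : Quad V) : Prop :=
  Disjoint x.1 x.2.1 ∧ x.1.card = m ∧ x.2.1.card = m ∧
    Set.InjOn x.2.2.1 (x.1 : Set V) ∧ Set.InjOn x.2.2.2 (x.2.1 : Set V) ∧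
    (∀ u ∈ x.1, x.2.2.1 u ≠ u) ∧ (∀ v ∈ x.2.1, x.2.2.2 v ≠ v)

/-- tested pairs -/
def tested (x : Quad V) : Finset (V × V) :=
  (x.1 ×ˢ x.2.1).filter (fun p => p.2 ≠ x.2.2.1 p.1 ∧ p.1 ≠ x.2.2.2 p.2 ∧ x.2.2.1 p.1 ≠ x.2.2.2 p.2)

/-- tested slots -/
def slots (x : Quad V) : Finset (Sym2 V) := (tested x).image (fun p => s(p.1, p.2))

/-- a pair is spoiled by `E` -/
def Spoiled (x : Quad V) (E : Finset (Sym2 V)) (p : V × V) : Prop :=
  (∃ w, adj E p.1 w ∧ adj E p.2 w) ∨ (∃ w, adj E (x.2.2.1 p.1) w ∧ adj E (x.2.2.2 p.2) w)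

/-- the graph fails for the quadruple `x` -/
def Bad (x : Quad V) (G : Finset (Sym2 V)) : Prop :=
  ∀ p ∈ tested x, s(p.1, p.2) ∈ G → Spoiled x G p

open Classical in
/-- spoiled slots -/
noncomputable def spoil (x : Quad V) (E : Finset (Sym2 V)) : Finset (Sym2 V) :=
  ((tested x).filter (fun p => Spoiled x E p)).image (fun p => s(p.1, p.2))

theorem card_tested {m : ℕ} (hm : 6 ≤ m) {x : Quad V} (hx : Valid m x) :
    m * m ≤ 2 * (tested x).card := by
  obtain ⟨hd, hU, hU', hb, hb', hfb, hfb'⟩ := hx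
  set B1 := x.1.image (fun u => (u, x.2.2.1 u)) with hB1
  set B2 := x.2.1.image (fun v => (x.2.2.2 v, v)) with hB2
  set B3 := (x.1 ×ˢ x.2.1).filter (fun p => x.2.2.1 p.1 = x.2.2.2 p.2) with hB3
  have h1 : B1.card ≤ m := hU ▸ Finset.card_image_le
  have h2 : B2.card ≤ m := hU' ▸ Finset.card_image_le
  have h3 : B3.card ≤ m := by
    rw [← hU, ← Finset.card_image_of_injOn (s := B3) (f := Prod.fst)]
    · refine Finset.card_le_card ?_
      intro u hu
      obtain ⟨p, hp, rfl⟩ := Finset.mem_image.1 hu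
      exact (Finset.mem_product.1 (Finset.mem_filter.1 hp).1).1
    · intro p hp q hq h
      have hp' := Finset.mem_filter.1 hp
      have hq' := Finset.mem_filter.1 hq
      refine Prod.ext h (hb' (Finset.mem_product.1 hp'.1).2 (Finset.mem_product.1 hq'.1).2 ?_)
      rw [← hp'.2, ← hq'.2, h]
  have hcov : x.1 ×ˢ x.2.1 ⊆ tested x ∪ (B1 ∪ (B2 ∪ B3)) := by
    intro p hp
    by_cases hpt : p ∈ tested x
    · exact Finset.mem_union_left _ hpt
    · refine Finset.mem_union_right _ ?_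
      have hpm := Finset.mem_product.1 hp
      have : ¬ (p.2 ≠ x.2.2.1 p.1 ∧ p.1 ≠ x.2.2.2 p.2 ∧ x.2.2.1 p.1 ≠ x.2.2.2 p.2) :=
        fun h => hpt (Finset.mem_filter.2 ⟨hp, h⟩)
      rw [not_and_or, not_and_or, not_not, not_not, not_not] at this
      rcases this with h | h | h
      · exact Finset.mem_union_left _ (Finset.mem_image.2 ⟨p.1, hpm.1, Prod.ext rfl h.symm⟩)
      · exact Finset.mem_union_right _ (Finset.mem_union_left _
          (Finset.mem_image.2 ⟨p.2, hpm.2, Prod.ext h.symm rfl⟩))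
      · exact Finset.mem_union_right _ (Finset.mem_union_right _
          (Finset.mem_filter.2 ⟨hp, h⟩))
  have hc := Finset.card_le_card hcov
  rw [Finset.card_product, hU, hU'] at hc
  have h4 : (tested x ∪ (B1 ∪ (B2 ∪ B3))).card ≤ (tested x).card + (m + (m + m)) := by
    refine (Finset.card_union_le _ _).trans (Nat.add_le_add_left ?_ _)
    refine (Finset.card_union_le _ _).trans (Nat.add_le_add h1 ?_)
    exact (Finset.card_union_le _ _).trans (Nat.add_le_add h2 h3)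
  nlinarith

theorem card_slots {m : ℕ} {x : Quad V} (hx : Valid m x) :
    (slots x).card = (tested x).card := by
  unfold slots
  rw [Finset.card_image_of_injOn]
  intro p hp q hq h
  have hp' := Finset.mem_product.1 (Finset.mem_filter.1 hp).1
  have hq' := Finset.mem_product.1 (Finset.mem_filter.1 hq).1
  simp only at h
  rcases Sym2.eq_iff.1 h with h | h
  · exact Prod.ext h.1 h.2
  · exfalso
    have := Finset.disjoint_left.1 hx.1 hp'.1
    rw [h.1] at this
    exact this hq'.2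

theorem card_spoil {m D : ℕ} {x : Quad V} (hx : Valid m x) {E : Finset (Sym2 V)}
    (hD : ∀ w, (nb E w).card ≤ D) : (spoil x E).card ≤ 2 * (Fintype.card V * (D * D)) := by
  classical
  obtain ⟨hd, hU, hU', hb, hb', hfb, hfb'⟩ := hx
  set W : Finset (V × V) := Finset.univ.biUnion (fun w => nb E w ×ˢ nb E w) with hW
  have hWc : W.card ≤ Fintype.card V * (D * D) := by
    calc W.card ≤ ∑ w : V, (nb E w ×ˢ nb E w).card := Finset.card_biUnion_le
      _ ≤ ∑ w : V, D * D := by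
          refine Finset.sum_le_sum fun w _ => ?_
          rw [Finset.card_product]
          exact Nat.mul_le_mul (hD w) (hD w)
      _ = Fintype.card V * (D * D) := by rw [Finset.sum_const, Finset.card_univ, smul_eq_mul]
  have hmemW : ∀ a b w, adj E a w → adj E b w → (a, b) ∈ W := by
    intro a b w ha hb
    rw [hW, Finset.mem_biUnion]
    exact ⟨w, Finset.mem_univ _, Finset.mem_product.2 ⟨mem_nb.2 (adj_comm.1 ha), mem_nb.2 (adj_comm.1 hb)⟩⟩
  have h1 : ((tested x).filter (fun p => Spoiled x E p)).card ≤ W.card + W.card := by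
    have hsub : (tested x).filter (fun p => Spoiled x E p) ⊆
        W ∪ (x.1 ×ˢ x.2.1).filter (fun p => (x.2.2.1 p.1, x.2.2.2 p.2) ∈ W) := by
      intro p hp
      have hp' := Finset.mem_filter.1 hp
      have hpm := (Finset.mem_filter.1 hp'.1).1
      rcases hp'.2 with ⟨w, h1, h2⟩ | ⟨w, h1, h2⟩
      · exact Finset.mem_union_left _ (hmemW _ _ w h1 h2)
      · exact Finset.mem_union_right _ (Finset.mem_filter.2 ⟨hpm, hmemW _ _ w h1 h2⟩)
    refine (Finset.card_le_card hsub).trans ((Finset.card_union_le _ _).trans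
      (Nat.add_le_add_left ?_ _))
    rw [← Finset.card_image_of_injOn
      (s := (x.1 ×ˢ x.2.1).filter (fun p => (x.2.2.1 p.1, x.2.2.2 p.2) ∈ W))
      (f := fun p => (x.2.2.1 p.1, x.2.2.2 p.2))]
    · refine Finset.card_le_card ?_
      intro y hy
      obtain ⟨p, hp, rfl⟩ := Finset.mem_image.1 hy
      exact (Finset.mem_filter.1 hp).2
    · intro p hp q hq h
      have hp' := Finset.mem_product.1 (Finset.mem_filter.1 hp).1
      have hq' := Finset.mem_product.1 (Finset.mem_filter.1 hq).1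
      have h1 := congrArg Prod.fst h
      have h2 := congrArg Prod.snd h
      exact Prod.ext (hb hp'.1 hq'.1 h1) (hb' hp'.2 hq'.2 h2)
  unfold spoil
  refine Finset.card_image_le.trans (h1.trans ?_)
  omega

/-- many disjointly spoiled edges -/
theorem exists_spoiled {m r : ℕ} {x : Quad V} (hx : Valid m x) {G : Finset (Sym2 V)}
    (hbad : Bad x G) (hr : 5 * r ≤ (G ∩ slots x).card) :
    ∃ R, R ⊆ G ∧ R.card = r ∧ R ⊆ spoil x (G \ R) := by
  classical
  obtain ⟨hd, hU, hU', hb, hb', hfb, hfb'⟩ := hx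
  have hwit : ∀ e : Sym2 V, ∃ a c : Sym2 V, e ∈ G ∩ slots x →
      a ∈ G ∧ c ∈ G ∧ a ≠ e ∧ c ≠ e ∧ ∀ E : Finset (Sym2 V), a ∈ E → c ∈ E → e ∈ spoil x E := by
    intro e
    by_cases he : e ∈ G ∩ slots x
    · have heG := (Finset.mem_inter.1 he).1
      obtain ⟨p, hp, hpe⟩ := Finset.mem_image.1 (Finset.mem_inter.1 he).2
      have hp' := Finset.mem_filter.1 hp
      have hpm := Finset.mem_product.1 hp'.1
      obtain ⟨c1, c2, c3⟩ := hp'.2
      rw [← hpe] at heG
      rcases hbad p hp heG with ⟨w, h1, h2⟩ | ⟨w, h1, h2⟩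
      · refine ⟨s(p.1, w), s(p.2, w), fun _ => ⟨h1.2, h2.2, ?_, ?_, ?_⟩⟩
        · rw [← hpe]
          intro h
          rcases Sym2.eq_iff.1 h with h | h
          · exact h2.1 h.2.symm
          · exact h1.1 h.2.symm
        · rw [← hpe]
          intro h
          rcases Sym2.eq_iff.1 h with h | h
          · exact h2.1 h.2.symm
          · exact h1.1 h.2.symm
        · intro E ha hc
          refine Finset.mem_image.2 ⟨p, Finset.mem_filter.2 ⟨hp, Or.inl ⟨w, ⟨h1.1, ha⟩, ⟨h2.1, hc⟩⟩⟩, hpe⟩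
      · refine ⟨s(x.2.2.1 p.1, w), s(x.2.2.2 p.2, w), fun _ => ⟨h1.2, h2.2, ?_, ?_, ?_⟩⟩
        · rw [← hpe]
          intro h
          rcases Sym2.eq_iff.1 h with h | h
          · exact hfb _ hpm.1 h.1
          · exact c1 h.1.symm
        · rw [← hpe]
          intro h
          rcases Sym2.eq_iff.1 h with h | h
          · exact c2 h.1.symm
          · exact hfb' _ hpm.2 h.1
        · intro E ha hc
          refine Finset.mem_image.2 ⟨p, Finset.mem_filter.2 ⟨hp, Or.inr ⟨w, ⟨h1.1, ha⟩, ⟨h2.1, hc⟩⟩⟩, hpe⟩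
    · exact ⟨e, e, fun h => absurd h he⟩
  choose g₁ g₂ hg using hwit
  obtain ⟨R₀, hR₀E, hR₀c, hR₀⟩ := exists_indep g₁ g₂ _ (G ∩ slots x) rfl
    (fun e he => ⟨(hg e he).2.2.1, (hg e he).2.2.2.1⟩)
  obtain ⟨R, hRR₀, hRc⟩ := Finset.exists_subset_card_eq (s := R₀) (n := r) (by omega)
  refine ⟨R, fun e he => (Finset.mem_inter.1 (hR₀E (hRR₀ he))).1, hRc, ?_⟩
  intro e he
  have he₀ := hRR₀ he
  have hge := hg e (hR₀E he₀)
  refine hge.2.2.2.2 _ ?_ ?_
  · exact Finset.mem_sdiff.2 ⟨hge.1, fun h => (hR₀ e he₀).1 (hRR₀ h)⟩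
  · exact Finset.mem_sdiff.2 ⟨hge.2.1, fun h => (hR₀ e he₀).2 (hRR₀ h)⟩

omit [Fintype V] in
theorem nb_sdiff_card [Fintype V] {D : ℕ} (G R : Finset (Sym2 V)) (h : ∀ w, (nb G w).card ≤ D) :
    ∀ w, (nb (G \ R) w).card ≤ D := by
  intro w
  refine (Finset.card_le_card ?_).trans (h w)
  intro v hv
  rw [mem_nb] at hv ⊢
  exact ⟨hv.1, (Finset.mem_sdiff.1 hv.2).1⟩

/-- existence of a good slot set -/
theorem exists_slots {m r k : ℕ} {p : ℝ} (hp0 : 0 ≤ p) (hp1 : p ≤ 1 / 2)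
    (hk : 16 * (Fintype.card V : ℝ) * p ≤ (16 * k + 1 : ℕ))
    (hr : 16 * ((2 * (Fintype.card V * ((16 * k) * (16 * k))) : ℕ) : ℝ) * p ≤ r)
    (hN : (Fintype.card V : ℝ) * (1 / 2) ^ (16 * k + 1) ≤ 1 / 4)
    (hquad : (Fintype.card (Quad V) : ℝ) * (1 / 2) ^ r ≤ 1 / 4)
    (hfew : ∀ x : Quad V, Valid m x → 2 ^ (5 * r) * (1 - p / 2) ^ (slots x).card ≤ (1 / 2) ^ r) :
    ∃ G : Finset (Sym2 V), ∀ x : Quad V, Valid m x → ¬ Bad x G := by
  classical
  by_contra hcon
  push Not at hcon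
  have hp1' : p ≤ 1 := by linarith
  -- large degree
  set A1 : V → Finset (Finset (Sym2 V)) := fun w => Finset.univ.filter (fun G =>
    True ∧ ∃ R, R ⊆ G ∧ R.card = 16 * k + 1 ∧
      R ⊆ (Finset.univ.image (fun v => s(w, v)) : Finset (Sym2 V))) with hA1
  have h1 : ∀ w, ∑ G ∈ A1 w, wt p G ≤ (1 / 2) ^ (16 * k + 1) := by
    intro w
    have := sum_wt_spoil' hp0 hp1 (fun _ : Finset (Sym2 V) => True) (fun _ _ _ => trivial)
      (fun _ => (Finset.univ.image (fun v => s(w, v)) : Finset (Sym2 V))) (Fintype.card V)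
      (16 * k + 1) (fun _ _ => Finset.card_image_le.trans (by simp)) hk
    exact this
  set A2 : Quad V → Finset (Finset (Sym2 V)) := fun x => Finset.univ.filter (fun G =>
    (G ∩ slots x).card < 5 * r) with hA2
  have h2 : ∀ x, Valid m x → ∑ G ∈ A2 x, wt p G ≤ (1 / 2) ^ r := by
    intro x hx
    exact (sum_wt_few hp0 hp1' (slots x) (5 * r)).trans (hfew x hx)
  set A3 : Quad V → Finset (Finset (Sym2 V)) := fun x => Finset.univ.filter (fun G =>
    (∀ w, (nb G w).card ≤ 16 * k) ∧ ∃ R, R ⊆ G ∧ R.card = r ∧ R ⊆ spoil x (G \ R)) with hA3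
  have h3 : ∀ x, Valid m x → ∑ G ∈ A3 x, wt p G ≤ (1 / 2) ^ r := by
    intro x hx
    exact sum_wt_spoil' hp0 hp1 (fun G : Finset (Sym2 V) => ∀ w, (nb G w).card ≤ 16 * k)
      (fun G R h => nb_sdiff_card G R h) (spoil x) (2 * (Fintype.card V * ((16 * k) * (16 * k)))) r
      (fun G h => card_spoil hx h) hr
  set Q : Finset (Quad V) := Finset.univ.filter (fun x => Valid m x) with hQ
  have hcover : (Finset.univ : Finset (Finset (Sym2 V))) ⊆
      (Finset.univ.biUnion A1) ∪ (Q.biUnion A2 ∪ Q.biUnion A3) := by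
    intro G _
    by_cases hdeg : ∀ w, (nb G w).card ≤ 16 * k
    · obtain ⟨x, hx, hbad⟩ := hcon G
      have hxQ : x ∈ Q := Finset.mem_filter.2 ⟨Finset.mem_univ _, hx⟩
      refine Finset.mem_union_right _ ?_
      by_cases hc : (G ∩ slots x).card < 5 * r
      · exact Finset.mem_union_left _ (Finset.mem_biUnion.2 ⟨x, hxQ,
          Finset.mem_filter.2 ⟨Finset.mem_univ _, hc⟩⟩)
      · obtain ⟨R, hR⟩ := exists_spoiled hx hbad (not_lt.1 hc)
        exact Finset.mem_union_right _ (Finset.mem_biUnion.2 ⟨x, hxQ,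
          Finset.mem_filter.2 ⟨Finset.mem_univ _, hdeg, R, hR⟩⟩)
    · push Not at hdeg
      obtain ⟨w, hw⟩ := hdeg
      refine Finset.mem_union_left _ (Finset.mem_biUnion.2 ⟨w, Finset.mem_univ _,
        Finset.mem_filter.2 ⟨Finset.mem_univ _, trivial, ?_⟩⟩)
      have hinj : Function.Injective (fun v => s(w, v)) := by
        intro a b h
        exact Sym2.congr_right.1 h
      have hc : 16 * k + 1 ≤ ((nb G w).image (fun v => s(w, v))).card := by
        rw [Finset.card_image_of_injective _ hinj]; exact hw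
      obtain ⟨R, hR, hRc⟩ := Finset.exists_subset_card_eq hc
      refine ⟨R, ?_, hRc, ?_⟩
      · intro e he
        obtain ⟨v, hv, rfl⟩ := Finset.mem_image.1 (hR he)
        exact (mem_nb.1 hv).2
      · intro e he
        obtain ⟨v, hv, rfl⟩ := Finset.mem_image.1 (hR he)
        exact Finset.mem_image_of_mem _ (Finset.mem_univ _)
  have hw0 : ∀ G : Finset (Sym2 V), 0 ≤ wt p G := fun G => wt_nonneg hp0 hp1' G
  have hunion : ∀ s t : Finset (Finset (Sym2 V)), ∑ G ∈ s ∪ t, wt p G ≤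
      ∑ G ∈ s, wt p G + ∑ G ∈ t, wt p G := by
    intro s t
    rw [← Finset.sum_union_inter]
    have : 0 ≤ ∑ G ∈ s ∩ t, wt p G := Finset.sum_nonneg fun G _ => hw0 G
    linarith
  have hbi : ∀ {κ : Type _} [DecidableEq κ] (s : Finset κ) (t : κ → Finset (Finset (Sym2 V))),
      ∑ G ∈ s.biUnion t, wt p G ≤ ∑ i ∈ s, ∑ G ∈ t i, wt p G := by
    intro κ _ s t
    induction s using Finset.induction_on with
    | empty => simp
    | insert a s ha ih =>
      rw [Finset.biUnion_insert, Finset.sum_insert ha]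
      exact (hunion _ _).trans (by linarith)
  have htot : (1 : ℝ) ≤ ∑ w : V, ∑ G ∈ A1 w, wt p G + (∑ x ∈ Q, ∑ G ∈ A2 x, wt p G +
      ∑ x ∈ Q, ∑ G ∈ A3 x, wt p G) := by
    rw [← sum_wt (S := Sym2 V) p]
    calc ∑ G : Finset (Sym2 V), wt p G
        ≤ ∑ G ∈ (Finset.univ.biUnion A1) ∪ (Q.biUnion A2 ∪ Q.biUnion A3), wt p G :=
          Finset.sum_le_sum_of_subset_of_nonneg hcover fun G _ _ => hw0 G
      _ ≤ _ := by
          refine (hunion _ _).trans (add_le_add (hbi _ _) ?_)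
          exact (hunion _ _).trans (add_le_add (hbi _ _) (hbi _ _))
  have hb1 : ∑ w : V, ∑ G ∈ A1 w, wt p G ≤ 1 / 4 := by
    calc ∑ w : V, ∑ G ∈ A1 w, wt p G ≤ ∑ w : V, (1 / 2 : ℝ) ^ (16 * k + 1) :=
          Finset.sum_le_sum fun w _ => h1 w
      _ = (Fintype.card V : ℝ) * (1 / 2) ^ (16 * k + 1) := by
          rw [Finset.sum_const, Finset.card_univ, nsmul_eq_mul]
      _ ≤ 1 / 4 := hN
  have hq : ∀ (A : Quad V → Finset (Finset (Sym2 V))),
      (∀ x, Valid m x → ∑ G ∈ A x, wt p G ≤ (1 / 2) ^ r) →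
      ∑ x ∈ Q, ∑ G ∈ A x, wt p G ≤ 1 / 4 := by
    intro A hA
    calc ∑ x ∈ Q, ∑ G ∈ A x, wt p G ≤ ∑ x ∈ Q, (1 / 2 : ℝ) ^ r :=
          Finset.sum_le_sum fun x hx => hA x (Finset.mem_filter.1 hx).2
      _ = (Q.card : ℝ) * (1 / 2) ^ r := by rw [Finset.sum_const, nsmul_eq_mul]
      _ ≤ (Fintype.card (Quad V) : ℝ) * (1 / 2) ^ r := by
          refine mul_le_mul_of_nonneg_right ?_ (by positivity)
          exact_mod_cast Finset.card_le_univ _
      _ ≤ 1 / 4 := hquad
  have := hq A2 h2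
  have := hq A3 h3
  linarith

end Pool.Agent.ChromScheme
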