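import Pool.Agent.ChromScheme.Conflict

namespace Pool.Agent.ChromScheme

open Finset

/-- `H` has a chromatic `k`-scheme: a proper colouring `f` with colours `Fin k`, vertices `x i` of
colour `i`, and for all `i < j` a path from `x i` to `x j` whose vertices are coloured alternately
`i` and `j`. -/
def HasScheme {W : Type*} (H : SimpleGraph W) (k : ℕ) : Prop :=
  ∃ (f : H.Coloring (Fin k)) (x : Fin k → W), (∀ i, f (x i) = i) ∧
    ∀ i j, i < j → ∃ p : H.Walk (x i) (x j), p.IsPath ∧
      ∀ n ≤ p.length, f (p.getVert n) = if Even n then i else j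

theorem no_scheme {V : Type*} [Fintype V] [DecidableEq V] (H : SimpleGraph V)
    (hind : ∀ Z : Finset V, (∀ p ∈ Z, ∀ q ∈ Z, ¬ H.Adj p q) → 16 * Z.card ≤ Fintype.card V)
    (k : ℕ)
    (hconf : ∀ (I : Finset (Fin k)) (x y : Fin k → V), Set.InjOn x (I : Set (Fin k)) →
      Set.InjOn y (I : Set (Fin k)) → 3 * Fintype.card V ≤ 8 * I.card →
      ∃ i ∈ I, ∃ j ∈ I, H.Adj (x i) (x j) ∧ H.Adj (y i) (y j))
    (hk : Fintype.card V ≤ 2 * k) (G' : Hᶜ.Subgraph) : ¬ HasScheme G'.coe k := by
  classical
  rintro ⟨f, x, hfx, hpath⟩
  set K : Fin k → Finset V :=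
    fun i => Finset.univ.filter (fun v => ∃ h : v ∈ G'.verts, f ⟨v, h⟩ = i) with hK
  have hmemK : ∀ i v, v ∈ K i ↔ ∃ h : v ∈ G'.verts, f ⟨v, h⟩ = i := by
    intro i v
    simp [hK]
  have hxK : ∀ i, ((x i : G'.verts) : V) ∈ K i := by
    intro i
    rw [hmemK]
    exact ⟨(x i).2, hfx i⟩
  have hdisj : ∀ i j v, v ∈ K i → v ∈ K j → i = j := by
    intro i j v hi hj
    rw [hmemK] at hi hj
    obtain ⟨h1, h2⟩ := hi
    obtain ⟨h3, h4⟩ := hj
    exact h2.symm.trans h4
  have hsum : ∑ i, (K i).card ≤ Fintype.card V := by
    rw [← Finset.card_biUnion]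
    · exact Finset.card_le_univ _
    · intro i _ j _ hij
      rw [Function.onFun, Finset.disjoint_left]
      intro v hi hj
      exact hij (hdisj i j v hi hj)
  have hpos : ∀ i, 1 ≤ (K i).card := fun i => Finset.card_pos.2 ⟨_, hxK i⟩
  -- steps of a walk
  have hstep : ∀ (i j : Fin k) (p : G'.coe.Walk (x i) (x j)) (n : ℕ), n < p.length →
      ¬ H.Adj ((p.getVert n : G'.verts) : V) ((p.getVert (n + 1) : G'.verts) : V) := by
    intro i j p n hn
    have h1 := p.adj_getVert_succ hn
    have h2 : G'.Adj (p.getVert n : V) (p.getVert (n + 1) : V) := h1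
    have h3 := G'.adj_sub h2
    rw [SimpleGraph.compl_adj] at h3
    exact h3.2
  have hcolK : ∀ (i : Fin k) (w : G'.verts), f w = i → (w : V) ∈ K i := by
    intro i w hw
    rw [hmemK]
    exact ⟨w.2, hw⟩
  set S1 : Finset (Fin k) := Finset.univ.filter (fun i => (K i).card = 1) with hS1
  set S2 : Finset (Fin k) := Finset.univ.filter (fun i => (K i).card = 2) with hS2
  -- singles are independent in `H`
  have hxinj : Function.Injective (fun i => ((x i : G'.verts) : V)) := by
    intro i j hij
    have h1 := hxK i
    have h2 := hxK j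
    simp only at hij
    rw [hij] at h1
    exact hdisj i j _ h1 h2
  have hsingle : ∀ i ∈ S1, ∀ j ∈ S1, i < j → ¬ H.Adj (x i : V) (x j : V) := by
    intro i hi j hj hij
    obtain ⟨p, _, hp⟩ := hpath i j hij
    have hlen : 0 < p.length := by
      rcases Nat.eq_zero_or_pos p.length with h0 | h0
      · exfalso
        have := SimpleGraph.Walk.eq_of_length_eq_zero h0
        have h2 := congrArg f this
        rw [hfx, hfx] at h2
        exact absurd h2 (ne_of_lt hij)
      · exact h0
    have h1 := hp 1 hlen
    have h2 : ¬ Even 1 := by decide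
    rw [if_neg h2] at h1
    have h3 := hcolK j _ h1
    have hj1 : (K j).card = 1 := (Finset.mem_filter.1 hj).2
    obtain ⟨v, hv⟩ := Finset.card_eq_one.1 hj1
    have h4 := hxK j
    rw [hv, Finset.mem_singleton] at h3 h4
    have h5 := hstep i j p 0 hlen
    rw [SimpleGraph.Walk.getVert_zero] at h5
    rw [show (0 + 1) = 1 from rfl, h3, ← h4] at h5
    exact h5
  have hS1card : 16 * S1.card ≤ Fintype.card V := by
    have := hind (S1.image (fun i => ((x i : G'.verts) : V))) ?_
    · rwa [Finset.card_image_of_injective _ hxinj] at this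
    · intro p hp q hq
      obtain ⟨i, hi, rfl⟩ := Finset.mem_image.1 hp
      obtain ⟨j, hj, rfl⟩ := Finset.mem_image.1 hq
      rcases lt_trichotomy i j with h | h | h
      · exact hsingle i hi j hj h
      · subst h; exact H.loopless.irrefl _
      · exact fun hadj => hsingle j hj i hi h hadj.symm
  -- counting
  have hcount : 3 * Fintype.card V ≤ 8 * S2.card := by
    have h1 : 3 * k ≤ ∑ i, (K i).card + 2 * S1.card + S2.card := by
      have : ∑ i : Fin k, 3 ≤ ∑ i : Fin k, ((K i).card + (if i ∈ S1 then 2 else 0) +
          (if i ∈ S2 then 1 else 0)) := by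
        refine Finset.sum_le_sum fun i _ => ?_
        have hp := hpos i
        by_cases h1 : (K i).card = 1
        · have : i ∈ S1 := Finset.mem_filter.2 ⟨Finset.mem_univ _, h1⟩
          rw [if_pos this]; omega
        · by_cases h2 : (K i).card = 2
          · have : i ∈ S2 := Finset.mem_filter.2 ⟨Finset.mem_univ _, h2⟩
            rw [if_pos this]; omega
          · omega
      rw [Finset.sum_add_distrib, Finset.sum_add_distrib, Finset.sum_ite_mem,
        Finset.sum_ite_mem, Finset.univ_inter, Finset.univ_inter, Finset.sum_const,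
        Finset.sum_const, Finset.sum_const, Finset.card_univ, Fintype.card_fin] at this
      simp only [smul_eq_mul] at this
      omega
    omega
  -- the second vertex
  have hy : ∀ i, ∃ y : V, (K i).card = 2 → y ≠ (x i : V) ∧ K i = {(x i : V), y} := by
    intro i
    by_cases h2 : (K i).card = 2
    · obtain ⟨a, b, hab, hKi⟩ := Finset.card_eq_two.1 h2
      have h4 := hxK i
      rw [hKi, Finset.mem_insert, Finset.mem_singleton] at h4
      rcases h4 with h4 | h4
      · exact ⟨b, fun _ => ⟨by rw [h4]; exact hab.symm, by rw [h4]; exact hKi⟩⟩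
      · exact ⟨a, fun _ => ⟨by rw [h4]; exact hab, by rw [h4, Finset.pair_comm]; exact hKi⟩⟩
    · exact ⟨x i, fun h => absurd h h2⟩
  choose y hy using hy
  have hyK : ∀ i ∈ S2, y i ∈ K i := by
    intro i hi
    have h := hy i (Finset.mem_filter.1 hi).2
    rw [h.2]; simp
  obtain ⟨i, hi, j, hj, hxx, hyy⟩ := hconf S2 (fun i => ((x i : G'.verts) : V)) y
    (hxinj.injOn) (by
      intro i hi j hj hij
      have h1 := hyK i hi
      have h2 := hyK j hj
      rw [hij] at h1
      exact hdisj i j _ h1 h2) hcount
  -- contradiction for an ordered conflicting pair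
  have main : ∀ i ∈ S2, ∀ j ∈ S2, i < j → H.Adj (x i : V) (x j : V) → H.Adj (y i) (y j) → False := by
    intro i hi j hj hij hxx hyy
    obtain ⟨p, _, hp⟩ := hpath i j hij
    have hKi := hy i (Finset.mem_filter.1 hi).2
    have hKj := hy j (Finset.mem_filter.1 hj).2
    have claim : ∀ n, n ≤ p.length →
        ((p.getVert n : G'.verts) : V) = if Even n then (x i : V) else y j := by
      intro n
      induction n with
      | zero => intro _; simp
      | succ n ih =>
        intro hn
        have ih' := ih (by omega)
        have hadj := hstep i j p n (by omega)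
        have hcol := hp (n + 1) hn
        by_cases he : Even n
        · have he' : ¬ Even (n + 1) := by rw [Nat.even_add_one]; exact fun h => h he
          rw [if_pos he] at ih'
          rw [if_neg he'] at hcol
          rw [if_neg he']
          have h3 := hcolK j _ hcol
          rw [hKj.2, Finset.mem_insert, Finset.mem_singleton] at h3
          rcases h3 with h3 | h3
          · rw [ih', h3] at hadj
            exact absurd hxx hadj
          · exact h3
        · have he' : Even (n + 1) := by rw [Nat.even_add_one]; exact he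
          rw [if_neg he] at ih'
          rw [if_pos he'] at hcol
          rw [if_pos he']
          have h3 := hcolK i _ hcol
          rw [hKi.2, Finset.mem_insert, Finset.mem_singleton] at h3
          rcases h3 with h3 | h3
          · exact h3
          · rw [ih', h3] at hadj
            exact absurd hyy.symm hadj
    have hlast := claim p.length le_rfl
    rw [SimpleGraph.Walk.getVert_length] at hlast
    by_cases he : Even p.length
    · rw [if_pos he] at hlast
      have := hxinj (a₁ := j) (a₂ := i) hlast
      exact absurd this (ne_of_gt hij)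
    · rw [if_neg he] at hlast
      exact hKj.1 hlast.symm
  rcases lt_trichotomy i j with h | h | h
  · exact main i hi j hj h hxx hyy
  · subst h; exact H.loopless.irrefl _ hxx
  · exact main j hj i hi h hxx.symm hyy.symm

end Pool.Agent.ChromScheme
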